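import Mathlib

/-!
ROW BXCount (most `D`-sets are spread; about 140 lines).  `blk T i` = the `t` with `(i,t) ∈ T`.
PROOF.  Markov.  Let `v = m * l`, `β i T = (blk T i).card`.  For fixed `i`:
`∑_(|T| = D) 4 ^ β = ∑_T ∑_(A ⊆ blk T i) 3 ^ A.card` (`4 = 1 + 3`: `Finset.sum_pow_mul_eq_add_pow` / `Finset.prod_one_add`) `= ∑_(A : Finset (Fin l)) 3 ^ A.card * #{T | |T| = D, {i} × A ⊆ T}`.
`#{T | T.card = D, Q ⊆ T} = C(v - a, D - a)` for `a = Q.card ≤ D` (`0` if `a > D`; bijection `T ↦ T \ Q`; `≤` is enough), and `C(v,D) * C(D,a) = C(v,a) * C(v-a,D-a)` (`Nat.choose_mul`),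
`C(D,a) * v ^ a ≤ C(v,a) * D ^ a` (`descFactorial`, each factor `(D - i) v ≤ (v - i) D`), so `#{..} ≤ C(v,D) * (D / v) ^ a` (real).
So `∑_T 4 ^ β ≤ C(v,D) ∑_A (3 D / v) ^ A.card = C(v,D) (1 + 3 D / v) ^ l`.  With `x = 3 D / m ≤ 1/2`: `(1 + x / l) ^ l ≤ exp x ≤ 1 / (1 - x) ≤ 1 + 2 x` (`l ≥ 1`).
So `∑_T ∑_i (4 ^ β - 1) ≤ C(v,D) * m * 6 D / m = 6 D C(v,D)` (all in ℝ; `l = 0`: then `v = 0`, `D ≤ v`...: `1 ≤ l` is assumed).  The `T` with `∑_i (4 ^ β - 1) > 12 D` number at most `C(v,D) / 2`
(`D ≥ 1`); the `T` with `T.card = D` number `C(v,D)` (`Finset.card_powersetCard`).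
-/

set_option autoImplicit false
open scoped Classical

namespace H27BP

/-- the bits of pigeon `i` in `T` -/
def blk {m l : ℕ} (T : Finset (Fin m × Fin l)) (i : Fin m) : Finset (Fin l) := Finset.univ.filter (fun t => (i, t) ∈ T)

private theorem choose_aux (v D : ℕ) (hDv : D ≤ v) : ∀ a : ℕ, a ≤ D →
    (v - a).choose (D - a) * v ^ a ≤ v.choose D * D ^ a := by
  intro a
  induction a with
  | zero => intro _; simp
  | succ a ih =>
    intro ha
    have h1 := ih (by omega)
    have h2 : (v - a).choose (D - a) * (D - a) = (v - a) * (v - (a + 1)).choose (D - (a + 1)) := by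
      have h3 := Nat.add_one_mul_choose_eq (v - (a + 1)) (D - (a + 1))
      have h4 : v - (a + 1) + 1 = v - a := by omega
      have h5 : D - (a + 1) + 1 = D - a := by omega
      rw [h4, h5] at h3
      exact h3.symm
    have h3 : (D - a) * v ≤ D * (v - a) := by
      obtain ⟨D', rfl⟩ : ∃ D', D = D' + a := ⟨D - a, by omega⟩
      obtain ⟨v', rfl⟩ : ∃ v', v = v' + a := ⟨v - a, by omega⟩
      rw [Nat.add_sub_cancel, Nat.add_sub_cancel]
      have : D' ≤ v' := by omega
      nlinarith [Nat.mul_le_mul_right a this]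
    have hpos : 0 < v - a := by omega
    refine Nat.le_of_mul_le_mul_left ?_ hpos
    calc (v - a) * ((v - (a + 1)).choose (D - (a + 1)) * v ^ (a + 1))
        = ((v - a) * (v - (a + 1)).choose (D - (a + 1))) * v ^ a * v := by ring
      _ = ((v - a).choose (D - a) * v ^ a) * ((D - a) * v) := by rw [← h2]; ring
      _ ≤ (v.choose D * D ^ a) * (D * (v - a)) := Nat.mul_le_mul h1 h3
      _ = (v - a) * (v.choose D * D ^ (a + 1)) := by ring

private theorem cont_aux {α : Type} [Fintype α] [DecidableEq α] (D : ℕ) (Q : Finset α) :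
    ((Finset.univ.powersetCard D).filter (fun T : Finset α => Q ⊆ T)).card ≤
      (Fintype.card α - Q.card).choose (D - Q.card) := by
  have h1 : ((Finset.univ.powersetCard D).filter (fun T : Finset α => Q ⊆ T)).card ≤
      ((Finset.univ \ Q).powersetCard (D - Q.card)).card := by
    refine Finset.card_le_card_of_injOn (fun T => T \ Q) ?_ ?_
    · intro T hT
      have hT' := Finset.mem_filter.mp (Finset.mem_coe.mp hT)
      refine Finset.mem_coe.mpr (Finset.mem_powersetCard.mpr
        ⟨Finset.sdiff_subset_sdiff (Finset.subset_univ T) (Finset.Subset.refl Q), ?_⟩)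
      rw [Finset.card_sdiff_of_subset hT'.2, (Finset.mem_powersetCard.mp hT'.1).2]
    · intro T hT T' hT' h
      have h1 := (Finset.mem_filter.mp (Finset.mem_coe.mp hT)).2
      have h2 := (Finset.mem_filter.mp (Finset.mem_coe.mp hT')).2
      have h3 : T \ Q = T' \ Q := h
      rw [← Finset.sdiff_union_of_subset h1, ← Finset.sdiff_union_of_subset h2, h3]
  refine h1.trans (le_of_eq ?_)
  rw [Finset.card_powersetCard, Finset.card_sdiff_of_subset (Finset.subset_univ Q), Finset.card_univ]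

private theorem cont_real {α : Type} [Fintype α] [DecidableEq α] {D : ℕ} (Q : Finset α) (hDv : D ≤ Fintype.card α)
    (hD : 1 ≤ D) :
    (((Finset.univ.powersetCard D).filter (fun T : Finset α => Q ⊆ T)).card : ℝ) ≤
      ((Fintype.card α).choose D : ℝ) * ((D : ℝ) / Fintype.card α) ^ Q.card := by
  have hv : (0 : ℝ) < Fintype.card α := by exact_mod_cast (by omega : 0 < Fintype.card α)
  by_cases hQ : Q.card ≤ D
  · have h1 := cont_aux D Q
    have h2 := choose_aux (Fintype.card α) D hDv Q.card hQ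
    have h1' : (((Finset.univ.powersetCard D).filter (fun T : Finset α => Q ⊆ T)).card : ℝ) ≤
        ((Fintype.card α - Q.card).choose (D - Q.card) : ℕ) := by exact_mod_cast h1
    have h2' : (((Fintype.card α - Q.card).choose (D - Q.card) : ℕ) : ℝ) * (Fintype.card α : ℝ) ^ Q.card ≤
        ((Fintype.card α).choose D : ℝ) * (D : ℝ) ^ Q.card := by exact_mod_cast h2
    refine h1'.trans ?_
    rw [div_pow, mul_div_assoc', le_div_iff₀ (pow_pos hv _)]
    exact h2'
  · have h0 : (Finset.univ.powersetCard D).filter (fun T : Finset α => Q ⊆ T) = ∅ := by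
      rw [Finset.filter_eq_empty_iff]
      intro T hT hQT
      have h1 := Finset.card_le_card hQT
      rw [(Finset.mem_powersetCard.mp hT).2] at h1
      exact hQ h1
    rw [h0, Finset.card_empty, Nat.cast_zero]
    positivity

private theorem exp_aux {x : ℝ} (h0 : 0 ≤ x) (h1 : x ≤ 1 / 2) : Real.exp x ≤ 1 + 2 * x := by
  have h2 : 1 - x ≤ Real.exp (-x) := by
    have := Real.add_one_le_exp (-x)
    linarith
  have h3 : Real.exp x * Real.exp (-x) = 1 := by rw [← Real.exp_add, add_neg_cancel, Real.exp_zero]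
  have h4 := Real.exp_pos x
  have h5 : Real.exp x * (1 - x) ≤ 1 := by
    calc Real.exp x * (1 - x) ≤ Real.exp x * Real.exp (-x) := mul_le_mul_of_nonneg_left h2 h4.le
      _ = 1 := h3
  have h6 : 1 ≤ (1 + 2 * x) * (1 - x) := by nlinarith
  have h7 : 0 < 1 - x := by linarith
  by_contra hc
  rw [not_le] at hc
  have := mul_lt_mul_of_pos_right hc h7
  linarith

private theorem fib_aux {m l D : ℕ} (hl : 1 ≤ l) (hD : 1 ≤ D) (hm : 6 * D ≤ m) (i : Fin m) :
    ∑ T ∈ (Finset.univ : Finset (Fin m × Fin l)).powersetCard D, (4 : ℝ) ^ (blk T i).card ≤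
      ((m * l).choose D : ℝ) * (1 + 6 * D / m) := by
  have hcard : Fintype.card (Fin m × Fin l) = m * l := by
    rw [Fintype.card_prod, Fintype.card_fin, Fintype.card_fin]
  have hm0 : (0 : ℝ) < m := by exact_mod_cast (by omega : 0 < m)
  have hl0 : (0 : ℝ) < l := by exact_mod_cast (by omega : 0 < l)
  have hDv : D ≤ Fintype.card (Fin m × Fin l) := by
    rw [hcard]
    nlinarith
  have h1 : ∀ T : Finset (Fin m × Fin l), (4 : ℝ) ^ (blk T i).card =
      ∑ A : Finset (Fin l), if A ⊆ blk T i then (3 : ℝ) ^ A.card else 0 := by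
    intro T
    have h2 := Finset.sum_pow_mul_eq_add_pow (3 : ℝ) 1 (blk T i)
    have h3 : ∑ t ∈ (blk T i).powerset, (3 : ℝ) ^ t.card * 1 ^ ((blk T i).card - t.card) =
        ∑ t ∈ (blk T i).powerset, (3 : ℝ) ^ t.card := by
      refine Finset.sum_congr rfl fun t _ => ?_
      rw [one_pow, mul_one]
    rw [h3] at h2
    have h4 : (3 : ℝ) + 1 = 4 := by norm_num
    rw [h4] at h2
    rw [← h2, ← Finset.sum_filter]
    refine Finset.sum_congr ?_ fun _ _ => rfl
    ext A
    rw [Finset.mem_powerset, Finset.mem_filter]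
    exact ⟨fun h => ⟨Finset.mem_univ _, h⟩, fun h => h.2⟩
  have h2 : ∑ T ∈ (Finset.univ : Finset (Fin m × Fin l)).powersetCard D, (4 : ℝ) ^ (blk T i).card =
      ∑ A : Finset (Fin l), (3 : ℝ) ^ A.card *
        (((Finset.univ : Finset (Fin m × Fin l)).powersetCard D).filter
          (fun T => A.image (fun t => (i, t)) ⊆ T)).card := by
    rw [Finset.sum_congr rfl (fun T _ => h1 T), Finset.sum_comm]
    refine Finset.sum_congr rfl fun A _ => ?_
    rw [← Finset.sum_filter, Finset.sum_const, nsmul_eq_mul, mul_comm]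
    congr 2
    refine congrArg Finset.card (Finset.filter_congr fun T _ => ?_)
    constructor
    · intro h q hq
      obtain ⟨t, ht, rfl⟩ := Finset.mem_image.mp hq
      exact (Finset.mem_filter.mp (h ht)).2
    · intro h t ht
      exact Finset.mem_filter.mpr ⟨Finset.mem_univ _, h (Finset.mem_image_of_mem _ ht)⟩
  rw [h2]
  have h3 : ∀ A : Finset (Fin l), (A.image (fun t => (i, t))).card = A.card := by
    intro A
    refine Finset.card_image_of_injective _ ?_
    intro a b h
    exact (Prod.mk.injEq _ _ _ _ ▸ h : _ ∧ _).2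
  have h4 : ∑ A : Finset (Fin l), (3 : ℝ) ^ A.card *
        (((Finset.univ : Finset (Fin m × Fin l)).powersetCard D).filter
          (fun T => A.image (fun t => (i, t)) ⊆ T)).card ≤
      ∑ A : Finset (Fin l), ((m * l).choose D : ℝ) * (3 * (D : ℝ) / (m * l)) ^ A.card := by
    refine Finset.sum_le_sum fun A _ => ?_
    have h5 := cont_real (A.image (fun t => (i, t))) hDv hD
    rw [h3, hcard] at h5
    push_cast at h5
    refine (mul_le_mul_of_nonneg_left h5 (by positivity : (0 : ℝ) ≤ (3 : ℝ) ^ A.card)).trans (le_of_eq ?_)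
    rw [mul_div_assoc, mul_pow]
    ring
  refine h4.trans ?_
  rw [← Finset.mul_sum]
  refine mul_le_mul_of_nonneg_left ?_ (Nat.cast_nonneg _)
  have h5 : ∑ A : Finset (Fin l), (3 * (D : ℝ) / (m * l)) ^ A.card = (1 + 3 * (D : ℝ) / (m * l)) ^ l := by
    have h6 := Finset.sum_pow_mul_eq_add_pow (3 * (D : ℝ) / (m * l)) 1 (Finset.univ : Finset (Fin l))
    rw [Finset.card_univ, Fintype.card_fin, Finset.powerset_univ] at h6
    rw [add_comm (1 : ℝ), ← h6]
    refine Finset.sum_congr rfl fun t _ => ?_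
    rw [one_pow, mul_one]
  rw [h5]
  have hx0 : (0 : ℝ) ≤ 3 * D / m := by positivity
  have hx1 : 3 * (D : ℝ) / m ≤ 1 / 2 := by
    rw [div_le_div_iff₀ hm0 (by norm_num)]
    have : (6 * D : ℝ) ≤ m := by exact_mod_cast hm
    linarith
  calc (1 + 3 * (D : ℝ) / (m * l)) ^ l ≤ (Real.exp (3 * (D : ℝ) / (m * l))) ^ l := by
        refine pow_le_pow_left₀ (by positivity) ?_ l
        have := Real.add_one_le_exp (3 * (D : ℝ) / (m * l))
        linarith
    _ = Real.exp (3 * D / m) := by
        rw [← Real.exp_nat_mul]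
        congr 1
        field_simp
    _ ≤ 1 + 2 * (3 * D / m) := exp_aux hx0 hx1
    _ = 1 + 6 * D / m := by ring

theorem count {m l D : ℕ} (hl : 1 ≤ l) (hD : 1 ≤ D) (hm : 6 * D ≤ m) :
    (m * l).choose D ≤ 2 * (Finset.univ.filter (fun T : Finset (Fin m × Fin l) =>
      T.card = D ∧ ∑ i, (4 ^ (blk T i).card - 1) ≤ 12 * D)).card := by
  have hm0 : (0 : ℝ) < m := by exact_mod_cast (by omega : 0 < m)
  have hD0 : (0 : ℝ) < D := by exact_mod_cast (by omega : 0 < D)
  set P : Finset (Finset (Fin m × Fin l)) := (Finset.univ : Finset (Fin m × Fin l)).powersetCard D with hP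
  have hPc : P.card = (m * l).choose D := by
    rw [hP, Finset.card_powersetCard, Finset.card_univ, Fintype.card_prod, Fintype.card_fin, Fintype.card_fin]
  have hsum : ∑ T ∈ P, ∑ i : Fin m, ((4 : ℝ) ^ (blk T i).card - 1) ≤ 6 * D * ((m * l).choose D : ℝ) := by
    rw [Finset.sum_comm]
    have h1 : ∀ i : Fin m, ∑ T ∈ P, ((4 : ℝ) ^ (blk T i).card - 1) ≤ ((m * l).choose D : ℝ) * (6 * D / m) := by
      intro i
      rw [Finset.sum_sub_distrib, Finset.sum_const, nsmul_eq_mul, mul_one, hPc]
      have := fib_aux hl hD hm i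
      rw [← hP] at this
      linarith
    refine (Finset.sum_le_sum fun i _ => h1 i).trans (le_of_eq ?_)
    rw [Finset.sum_const, Finset.card_univ, Fintype.card_fin, nsmul_eq_mul]
    field_simp
  have hsumN : ∑ T ∈ P, ∑ i : Fin m, (4 ^ (blk T i).card - 1) ≤ 6 * D * (m * l).choose D := by
    have h1 : ((∑ T ∈ P, ∑ i : Fin m, (4 ^ (blk T i).card - 1) : ℕ) : ℝ) =
        ∑ T ∈ P, ∑ i : Fin m, ((4 : ℝ) ^ (blk T i).card - 1) := by
      rw [Nat.cast_sum]
      refine Finset.sum_congr rfl fun T _ => ?_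
      rw [Nat.cast_sum]
      refine Finset.sum_congr rfl fun i _ => ?_
      rw [Nat.cast_sub (Nat.one_le_pow _ _ (by norm_num))]
      push_cast
      ring
    have h2 := hsum
    rw [← h1] at h2
    exact_mod_cast h2
  set good := Finset.univ.filter (fun T : Finset (Fin m × Fin l) =>
      T.card = D ∧ ∑ i, (4 ^ (blk T i).card - 1) ≤ 12 * D) with hgood
  set bad := P.filter (fun T => ¬ ∑ i, (4 ^ (blk T i).card - 1) ≤ 12 * D) with hbad
  have h1 : bad.card * (12 * D) ≤ 6 * D * (m * l).choose D := by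
    refine le_trans ?_ hsumN
    rw [← smul_eq_mul, ← Finset.sum_const]
    refine (Finset.sum_le_sum fun T hT => ?_).trans (Finset.sum_le_sum_of_subset (Finset.filter_subset _ P))
    have := (Finset.mem_filter.mp hT).2
    omega
  have h2 : 2 * bad.card ≤ (m * l).choose D := by
    have h3 : (6 * D) * (2 * bad.card) ≤ (6 * D) * (m * l).choose D := by
      calc (6 * D) * (2 * bad.card) = bad.card * (12 * D) := by ring
        _ ≤ _ := h1
    exact Nat.le_of_mul_le_mul_left h3 (by omega)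
  have h3 : (P.filter (fun T => ∑ i, (4 ^ (blk T i).card - 1) ≤ 12 * D)).card + bad.card = P.card :=
    Finset.card_filter_add_card_filter_not _
  have h4 : (P.filter (fun T => ∑ i, (4 ^ (blk T i).card - 1) ≤ 12 * D)).card ≤ good.card := by
    refine Finset.card_le_card fun T hT => ?_
    rw [Finset.mem_filter] at hT
    rw [hgood, Finset.mem_filter]
    exact ⟨Finset.mem_univ _, (Finset.mem_powersetCard.mp hT.1).2, hT.2⟩
  omega

end H27BP
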