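import Mathlib

/-!
ROW BXCube (disjoint cubes of holes).  `Fin l → ZMod 2` are the holes; the cube of `i` consists of the `w` with `w = h i` outside `B i`.
-/

set_option autoImplicit false
open scoped Classical

namespace H27BP

/-- A point that vanishes on `b` and whose cube misses the small set `W`. -/
private theorem exists_pt {l : ℕ} (b : Finset (Fin l)) (W : Finset (Fin l → ZMod 2))
    (h : W.card * 2 ^ b.card < 2 ^ l) :
    ∃ v : Fin l → ZMod 2, (∀ t ∈ b, v t = 0) ∧ ∀ w ∈ W, ¬ ∀ t, t ∉ b → w t = v t := by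
  by_contra hc
  push Not at hc
  have hs : Function.Surjective (fun p : {w // w ∈ W} × ({t // t ∈ b} → ZMod 2) =>
      (fun t : Fin l => if ht : t ∈ b then p.2 ⟨t, ht⟩ else p.1.1 t)) := by
    intro u
    obtain ⟨w, hw, hwt⟩ := hc (fun t => if t ∈ b then 0 else u t) (fun t ht => if_pos ht)
    refine ⟨(⟨w, hw⟩, fun t => u t.1), ?_⟩
    funext t
    by_cases ht : t ∈ b
    · simp only [dif_pos ht]
    · have := hwt t ht
      rw [if_neg ht] at this
      simp only [dif_neg ht]
      exact this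
  have h1 := Fintype.card_le_of_surjective _ hs
  rw [Fintype.card_prod, Fintype.card_fun, Fintype.card_fun, ZMod.card, Fintype.card_fin,
    Fintype.card_coe, Fintype.card_coe] at h1
  omega

/-- A cube of `b` has at most `2 ^ b.card` elements. -/
private theorem cube_card {l : ℕ} (b : Finset (Fin l)) (v : Fin l → ZMod 2) :
    (Finset.univ.filter (fun w : Fin l → ZMod 2 => ∀ t, t ∉ b → w t = v t)).card ≤ 2 ^ b.card := by
  have h1 : (Finset.univ.filter (fun w : Fin l → ZMod 2 => ∀ t, t ∉ b → w t = v t)).card ≤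
      (Finset.univ : Finset ({t // t ∈ b} → ZMod 2)).card := by
    refine Finset.card_le_card_of_injOn (fun w t => w t.1) (fun _ _ => Finset.mem_coe.2 (Finset.mem_univ _)) ?_
    intro w hw w' hw' he
    have hw1 := (Finset.mem_filter.1 (Finset.mem_coe.1 hw)).2
    have hw2 := (Finset.mem_filter.1 (Finset.mem_coe.1 hw')).2
    funext t
    by_cases ht : t ∈ b
    · exact congrFun he ⟨t, ht⟩
    · rw [hw1 t ht, hw2 t ht]
  rw [Finset.card_univ, Fintype.card_fun, ZMod.card, Fintype.card_coe] at h1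
  exact h1

private theorem cubes_aux {ι : Type} {l : ℕ} (B : ι → Finset (Fin l)) (k : ℕ) : ∀ P : Finset ι,
    P.card = k → ∑ i ∈ P, 4 ^ (B i).card ≤ 2 ^ l →
    ∃ h : ι → Fin l → ZMod 2, (∀ i ∈ P, ∀ t ∈ B i, h i t = 0) ∧
      ∀ i ∈ P, ∀ j ∈ P, i ≠ j → ∀ w : Fin l → ZMod 2, (∀ t, t ∉ B i → w t = h i t) →
        ¬ ∀ t, t ∉ B j → w t = h j t := by
  induction k with
  | zero =>
    intro P hk _
    rw [Finset.card_eq_zero] at hk
    subst hk
    exact ⟨fun _ _ => 0, by simp, by simp⟩
  | succ k ih =>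
    intro P hk hP
    have hne : P.Nonempty := by
      rw [← Finset.card_pos]
      omega
    obtain ⟨i, hi, hmin⟩ := Finset.exists_min_image P (fun j => (B j).card) hne
    have hsum : ∑ j ∈ P.erase i, 4 ^ (B j).card + 4 ^ (B i).card = ∑ j ∈ P, 4 ^ (B j).card :=
      Finset.sum_erase_add _ _ hi
    have hpos : 0 < 4 ^ (B i).card := Nat.pow_pos (by norm_num)
    obtain ⟨h, h1, h2⟩ := ih (P.erase i) (by rw [Finset.card_erase_of_mem hi, hk]; rfl)
      (by omega)
    set W : Finset (Fin l → ZMod 2) := (P.erase i).biUnion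
      (fun j => Finset.univ.filter (fun w : Fin l → ZMod 2 => ∀ t, t ∉ B j → w t = h j t)) with hW
    have hWc : W.card ≤ ∑ j ∈ P.erase i, 2 ^ (B j).card :=
      Finset.card_biUnion_le.trans (Finset.sum_le_sum fun j _ => cube_card (B j) (h j))
    have hlt : W.card * 2 ^ (B i).card < 2 ^ l := by
      have e1 : W.card * 2 ^ (B i).card ≤ ∑ j ∈ P.erase i, 4 ^ (B j).card := by
        refine (Nat.mul_le_mul_right _ hWc).trans ?_
        rw [Finset.sum_mul]
        refine Finset.sum_le_sum fun j hj => ?_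
        have e2 : 2 ^ (B i).card ≤ 2 ^ (B j).card :=
          Nat.pow_le_pow_right (by norm_num) (hmin j (Finset.mem_of_mem_erase hj))
        calc 2 ^ (B j).card * 2 ^ (B i).card ≤ 2 ^ (B j).card * 2 ^ (B j).card :=
              Nat.mul_le_mul_left _ e2
          _ = 4 ^ (B j).card := by rw [← Nat.mul_pow]
      omega
    obtain ⟨v, hv1, hv2⟩ := exists_pt (B i) W hlt
    have hmem : ∀ j ∈ P, j ≠ i → ∀ w : Fin l → ZMod 2, (∀ t, t ∉ B j → w t = h j t) → w ∈ W := by
      intro j hj hji w hw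
      rw [hW, Finset.mem_biUnion]
      exact ⟨j, Finset.mem_erase.2 ⟨hji, hj⟩, Finset.mem_filter.2 ⟨Finset.mem_univ _, hw⟩⟩
    refine ⟨fun j => if j = i then v else h j, ?_, ?_⟩
    · intro j hj t ht
      by_cases hji : j = i
      · subst hji
        simp only [if_true]
        exact hv1 t ht
      · simp only [if_neg hji]
        exact h1 j (Finset.mem_erase.2 ⟨hji, hj⟩) t ht
    · intro a ha b hb hab w hwa hwb
      by_cases hai : a = i
      · subst hai
        have hba : b ≠ a := fun e => hab e.symm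
        simp only [if_true] at hwa
        simp only [if_neg hba] at hwb
        exact hv2 w (hmem b hb hba w hwb) hwa
      · by_cases hbi : b = i
        · subst hbi
          simp only [if_true] at hwb
          simp only [if_neg hai] at hwa
          exact hv2 w (hmem a ha hai w hwa) hwb
        · simp only [if_neg hai] at hwa
          simp only [if_neg hbi] at hwb
          exact h2 a (Finset.mem_erase.2 ⟨hai, ha⟩) b (Finset.mem_erase.2 ⟨hbi, hb⟩) hab w hwa hwb

theorem cubes {ι : Type} {l : ℕ} (P : Finset ι) (B : ι → Finset (Fin l)) (hP : ∑ i ∈ P, 4 ^ (B i).card ≤ 2 ^ l) :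
    ∃ h : ι → Fin l → ZMod 2, (∀ i ∈ P, ∀ t ∈ B i, h i t = 0) ∧
      ∀ i ∈ P, ∀ j ∈ P, i ≠ j → ∀ w : Fin l → ZMod 2, (∀ t, t ∉ B i → w t = h i t) → ¬ ∀ t, t ∉ B j → w t = h j t :=
  cubes_aux B P.card P rfl hP

end H27BP
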