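import Mathlib

/-!
Definitions used in the hand-in statement (helper27): lines, refutations, the binary pigeonhole principle.
-/

set_option autoImplicit false
open scoped Classical

namespace BitPigeons

/-- The assignments: `x i` is the hole of pigeon `i`, written with `l` bits `x i t` (elements of the field with two
elements). There are `m` pigeons and `2 ^ l` holes. -/
abbrev Pt (m l : ℕ) := Fin m → Fin l → ZMod 2

/-- The function `g` is a polynomial of degree at most `d` in the bits, over the field with two elements. -/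
def DegLE {m l : ℕ} (d : ℕ) (g : Pt m l → ZMod 2) : Prop :=
  ∃ a : Finset (Fin m × Fin l) → ZMod 2, ∀ x,
    g x = ∑ T ∈ Finset.univ.filter (fun T : Finset (Fin m × Fin l) => T.card ≤ d), a T * ∏ p ∈ T, x p.1 p.2

/-- A proof line: the disjunction of the polynomial equations `g = 0`, `g ∈ E`, of degree at most `e` (any number of
them) and of one polynomial equation `p = 0` of degree at most `t`. -/
structure Line (m l e t : ℕ) where
  E : Set (Pt m l → ZMod 2)
  hE : ∀ g ∈ E, DegLE e g
  p : Pt m l → ZMod 2
  hp : DegLE t p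

/-- The line is true at the assignment `x`. -/
def Line.Holds {m l e t : ℕ} (L : Line m l e t) (x : Pt m l) : Prop := (∃ g ∈ L.E, g x = 0) ∨ L.p x = 0

/-- A refutation with `N` lines of the conditions `C ∈ A` on assignments: every line is implied by one condition of `A`
or by at most `f` earlier lines; the last line is false everywhere. -/
def Refutes {m l : ℕ} (e t f : ℕ) (A : Set (Pt m l → Prop)) (N : ℕ) : Prop :=
  ∃ L : ℕ → Line m l e t, 1 ≤ N ∧ (∀ x, ¬ (L (N - 1)).Holds x) ∧
    ∀ i < N, (∃ C ∈ A, ∀ x, C x → (L i).Holds x) ∨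
      ∃ J : Finset ℕ, J.card ≤ f ∧ (∀ j ∈ J, j < i) ∧ ∀ x, (∀ j ∈ J, (L j).Holds x) → (L i).Holds x

/-- The conditions `the pigeons `i` and `j` are in different holes`, `i ≠ j`. -/
def Different (m l : ℕ) : Set (Pt m l → Prop) := {C | ∃ i j : Fin m, i ≠ j ∧ ∀ x, C x ↔ x i ≠ x j}

/-- The clauses `the pigeons `i` and `j` are not both in the hole `h``, `i ≠ j`: some bit of `x i` or of `x j` differs
from the bit of `h`. -/
def Clauses (m l : ℕ) : Set (Pt m l → Prop) :=
  {C | ∃ (i j : Fin m) (h : Fin l → ZMod 2), i ≠ j ∧ ∀ x, C x ↔ ∃ t, x i t ≠ h t ∨ x j t ≠ h t}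

end BitPigeons
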