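import Pool.Agent.H27.BP.Pig

/-!
Functions depending on few pigeons and vanishing on the injective configurations (helper27).
`Blk s`: sums of functions depending on at most `s` pigeons.  `Van R s`: sums of functions which depend on some set `T` of
at most `s` pigeons and vanish on `Good T R`.  Main result `ext_all`: `Van R r ⊓ Blk d ≤ Van R d`, `d ≤ r`.
-/

set_option autoImplicit false
open scoped Classical

namespace H27BP

variable {ι H : Type}

/-- sums of functions depending on at most `s` pigeons -/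
def Blk (ι H : Type) (s : ℕ) : Submodule (ZMod 2) ((ι → H) → ZMod 2) :=
  Submodule.span (ZMod 2) {f | ∃ T : Finset ι, T.card ≤ s ∧ Dep T f}

/-- sums of functions which depend on at most `s` pigeons and vanish when these are in different holes outside `R` -/
def Van (ι : Type) {H : Type} (R : Finset H) (s : ℕ) : Submodule (ZMod 2) ((ι → H) → ZMod 2) :=
  Submodule.span (ZMod 2) {f | ∃ T : Finset ι, T.card ≤ s ∧ Dep T f ∧ ∀ x ∈ Good T R, f x = 0}

theorem Van_le_Blk (R : Finset H) (s : ℕ) : Van ι R s ≤ Blk ι H s :=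
  Submodule.span_mono fun _ ⟨T, hT, hf, _⟩ => ⟨T, hT, hf⟩

theorem Blk_mono {s t : ℕ} (h : s ≤ t) : Blk ι H s ≤ Blk ι H t :=
  Submodule.span_mono fun _ ⟨T, hT, hf⟩ => ⟨T, hT.trans h, hf⟩

theorem Van_mono (R : Finset H) {s t : ℕ} (h : s ≤ t) : Van ι R s ≤ Van ι R t :=
  Submodule.span_mono fun _ ⟨T, hT, hf⟩ => ⟨T, hT.trans h, hf⟩

theorem Dep.mul {T T' : Finset ι} {f g : (ι → H) → ZMod 2} (hf : Dep T f) (hg : Dep T' g) :
    Dep (T ∪ T') (f * g) := fun x y hxy => by
  rw [Pi.mul_apply, Pi.mul_apply, hf x y fun i hi => hxy i (Finset.mem_union_left _ hi),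
    hg x y fun i hi => hxy i (Finset.mem_union_right _ hi)]

theorem Van_mul {R : Finset H} {s t : ℕ} {f g : (ι → H) → ZMod 2} (hf : f ∈ Van ι R s) (hg : g ∈ Blk ι H t) :
    f * g ∈ Van ι R (s + t) := by
  have h1 : Van ι R s * Blk ι H t ≤ Van ι R (s + t) := by
    unfold Van Blk
    rw [Submodule.span_mul_span]
    refine Submodule.span_mono ?_
    rintro _ ⟨f, ⟨T, hT, hfd, hf0⟩, g, ⟨T', hT', hgd⟩, rfl⟩
    refine ⟨T ∪ T', (Finset.card_union_le T T').trans (Nat.add_le_add hT hT'), hfd.mul hgd, fun x hx => ?_⟩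
    show f x * g x = 0
    rw [hf0 x (good_mono Finset.subset_union_left (Finset.Subset.refl _) hx), zero_mul]
  exact h1 (Submodule.mul_mem_mul hf hg)

theorem Blk_mul {s t : ℕ} {f g : (ι → H) → ZMod 2} (hf : f ∈ Blk ι H s) (hg : g ∈ Blk ι H t) :
    f * g ∈ Blk ι H (s + t) := by
  have h1 : Blk ι H s * Blk ι H t ≤ Blk ι H (s + t) := by
    unfold Blk
    rw [Submodule.span_mul_span]
    refine Submodule.span_mono ?_
    rintro _ ⟨f, ⟨T, hT, hfd⟩, g, ⟨T', hT', hgd⟩, rfl⟩
    exact ⟨T ∪ T', (Finset.card_union_le T T').trans (Nat.add_le_add hT hT'), hfd.mul hgd⟩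
  exact h1 (Submodule.mul_mem_mul hf hg)

/-- `x` on `U`, the base point `b` on `T \ U`, `x` elsewhere -/
noncomputable def mix (T U : Finset ι) (b x : ι → H) : ι → H := fun i => if i ∈ T ∧ i ∉ U then b i else x i

/-- the pure `T`-component -/
noncomputable def piT (T : Finset ι) (b : ι → H) : ((ι → H) → ZMod 2) →ₗ[ZMod 2] ((ι → H) → ZMod 2) where
  toFun f := fun x => ∑ U ∈ T.powerset, f (mix T U b x)
  map_add' f g := by
    funext x
    simp only [Pi.add_apply, Finset.sum_add_distrib]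
  map_smul' c f := by
    funext x
    simp only [Pi.smul_apply, smul_eq_mul, Finset.mul_sum, RingHom.id_apply]

theorem piT_zero {T T' : Finset ι} (b : ι → H) {f : (ι → H) → ZMod 2} (hf : Dep T' f) (h : ¬ T ⊆ T') :
    piT T b f = 0 := by
  obtain ⟨a, ha, haT'⟩ := Finset.not_subset.1 h
  funext x
  show ∑ U ∈ T.powerset, f (mix T U b x) = 0
  have hT : T = insert a (T.erase a) := (Finset.insert_erase ha).symm
  have h1 : ∑ U ∈ T.powerset, f (mix T U b x) = ∑ U ∈ (insert a (T.erase a)).powerset, f (mix T U b x) := by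
    rw [← hT]
  rw [h1, Finset.sum_powerset_insert (Finset.notMem_erase a T)]
  have h2 : ∑ U ∈ (T.erase a).powerset, f (mix T (insert a U) b x) =
      ∑ U ∈ (T.erase a).powerset, f (mix T U b x) := by
    refine Finset.sum_congr rfl fun U _ => hf _ _ fun i hi => ?_
    have hia : i ≠ a := fun h => haT' (h ▸ hi)
    unfold mix
    by_cases h3 : i ∈ T ∧ i ∉ U
    · rw [if_pos h3, if_pos ⟨h3.1, fun h4 => by
        rcases Finset.mem_insert.1 h4 with h5 | h5
        · exact hia h5
        · exact h3.2 h5⟩]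
    · rw [if_neg h3, if_neg fun h4 => h3 ⟨h4.1, fun h5 => h4.2 (Finset.mem_insert_of_mem h5)⟩]
  rw [h2]
  exact two_zero _

/-- the functions depending only on `T` -/
def DepSub (T : Finset ι) : Submodule (ZMod 2) ((ι → H) → ZMod 2) where
  carrier := {f | Dep T f}
  add_mem' {f g} hf hg := fun x y hxy => by
    rw [Pi.add_apply, Pi.add_apply, hf x y hxy, hg x y hxy]
  zero_mem' := fun _ _ _ => rfl
  smul_mem' c f hf := fun x y hxy => by
    rw [Pi.smul_apply, Pi.smul_apply, hf x y hxy]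

/-- a function of `T` without pure `T`-component is a sum of functions of proper subsets -/
theorem piT_split {T : Finset ι} (b : ι → H) {f : (ι → H) → ZMod 2} (hf : Dep T f) (h : piT T b f = 0) :
    ∃ F : ι → (ι → H) → ZMod 2, (∀ i ∈ T, Dep (T.erase i) (F i)) ∧ ∀ x, f x = ∑ i ∈ T, F i x := by
  have h1 : f = ∑ U ∈ T.powerset.erase T, fun x => f (mix T U b x) := by
    funext x
    have h2 : ∑ U ∈ T.powerset, f (mix T U b x) = 0 := congrFun h x
    rw [← Finset.add_sum_erase T.powerset _ (Finset.mem_powerset_self T)] at h2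
    have h3 : f (mix T T b x) = f x := by
      refine hf _ _ fun i hi => ?_
      unfold mix
      exact if_neg fun h4 => h4.2 hi
    rw [h3] at h2
    rw [Finset.sum_apply]
    have h4 := two_zero (∑ U ∈ T.powerset.erase T, f (mix T U b x))
    linear_combination h2 - h4
  have h2 : f ∈ ⨆ i ∈ T, DepSub (H := H) (T.erase i) := by
    rw [h1]
    refine Submodule.sum_mem _ fun U hU => ?_
    obtain ⟨hU1, hU2⟩ := Finset.mem_erase.1 hU
    have h3 : ¬ T ⊆ U := fun h4 => hU1 (Finset.Subset.antisymm (Finset.mem_powerset.1 hU2) h4)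
    obtain ⟨i, hi, hiU⟩ := Finset.not_subset.1 h3
    refine Submodule.mem_iSup_of_mem i (Submodule.mem_iSup_of_mem hi ?_)
    intro x y hxy
    refine hf _ _ fun j hj => ?_
    unfold mix
    by_cases hjU : j ∈ T ∧ j ∉ U
    · rw [if_pos hjU, if_pos hjU]
    · rw [if_neg hjU, if_neg hjU]
      refine hxy j (Finset.mem_erase.2 ⟨?_, hj⟩)
      rintro rfl
      exact hjU ⟨hi, hiU⟩
  rw [Submodule.mem_iSup_finset_iff_exists_sum] at h2
  obtain ⟨μ, hμ⟩ := h2
  refine ⟨fun i => (μ i : (ι → H) → ZMod 2), fun i _ => (μ i).2, fun x => ?_⟩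
  rw [← hμ, Finset.sum_apply]

theorem dep_split {ι' : Type} [Fintype ι'] {R : Finset H} {s : ℕ} {v : (ι' → H) → ZMod 2} (hv : v ∈ Van ι' R (s + 1)) :
    ∃ c : Finset ι' → (ι' → H) → ZMod 2, (∀ T, T.card = s + 1 → Dep T (c T) ∧ ∀ x ∈ Good T R, c T x = 0) ∧
      v + ∑ T ∈ Finset.univ.filter (fun T : Finset ι' => T.card = s + 1), c T ∈ Van ι' R s := by
  unfold Van at hv
  induction hv using Submodule.span_induction with
  | mem f hf =>
    obtain ⟨T, hT, hfd, hf0⟩ := hf
    by_cases hTs : T.card = s + 1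
    · refine ⟨fun T' => if T' = T then f else 0, fun T' _ => ?_, ?_⟩
      · by_cases h1 : T' = T
        · simp only [if_pos h1]
          rw [h1]
          exact ⟨hfd, hf0⟩
        · simp only [if_neg h1]
          exact ⟨fun _ _ _ => rfl, fun _ _ => rfl⟩
      · rw [Finset.sum_ite_eq', if_pos (Finset.mem_filter.2 ⟨Finset.mem_univ T, hTs⟩)]
        have h1 : f + f = 0 := funext fun x => two_zero (f x)
        rw [h1]
        exact Submodule.zero_mem _
    · refine ⟨fun _ => 0, fun _ _ => ⟨fun _ _ _ => rfl, fun _ _ => rfl⟩, ?_⟩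
      rw [Finset.sum_const_zero, add_zero]
      exact Submodule.subset_span ⟨T, by omega, hfd, hf0⟩
  | zero =>
    refine ⟨fun _ => 0, fun _ _ => ⟨fun _ _ _ => rfl, fun _ _ => rfl⟩, ?_⟩
    rw [Finset.sum_const_zero, add_zero]
    exact Submodule.zero_mem _
  | add f g _ _ hf hg =>
    obtain ⟨c, hc, hc2⟩ := hf
    obtain ⟨d, hd, hd2⟩ := hg
    refine ⟨fun T => c T + d T, fun T hT => ⟨fun x y hxy => ?_, fun x hx => ?_⟩, ?_⟩
    · show c T x + d T x = c T y + d T y
      rw [(hc T hT).1 x y hxy, (hd T hT).1 x y hxy]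
    · show c T x + d T x = 0
      rw [(hc T hT).2 x hx, (hd T hT).2 x hx, add_zero]
    · rw [Finset.sum_add_distrib, add_add_add_comm]
      exact Submodule.add_mem _ hc2 hd2
  | smul a f _ hf =>
    obtain ⟨c, hc, hc2⟩ := hf
    refine ⟨fun T => a • c T, fun T hT => ⟨fun x y hxy => ?_, fun x hx => ?_⟩, ?_⟩
    · show a • c T x = a • c T y
      rw [(hc T hT).1 x y hxy]
    · show a • c T x = 0
      rw [(hc T hT).2 x hx, smul_zero]
    · rw [← Finset.smul_sum, ← smul_add]
      exact Submodule.smul_mem _ a hc2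

/-- **Degree reduction.** -/
theorem ext [Fintype ι] [Fintype H] {R : Finset H} {s : ℕ} (h : R.card + 2 * (s + 1) ≤ Fintype.card H + 1)
    {v : (ι → H) → ZMod 2} (hv : v ∈ Van ι R (s + 1)) (hb : v ∈ Blk ι H s) : v ∈ Van ι R s := by
  have hHne : Nonempty H := by
    rw [← Fintype.card_pos_iff]
    omega
  obtain ⟨b⟩ : Nonempty (ι → H) := ⟨fun _ => hHne.some⟩
  obtain ⟨c, hc, hc2⟩ := dep_split hv
  have hpB : ∀ T : Finset ι, T.card = s + 1 → ∀ f ∈ Blk ι H s, piT T b f = 0 := by
    intro T hT f hf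
    unfold Blk at hf
    induction hf using Submodule.span_induction with
    | mem f hf =>
      obtain ⟨T', hT', hfd⟩ := hf
      refine piT_zero b hfd fun h1 => ?_
      have := Finset.card_le_card h1
      omega
    | zero => exact map_zero _
    | add f g _ _ hf hg => rw [map_add, hf, hg, add_zero]
    | smul a f _ hf => rw [map_smul, hf, smul_zero]
  have hpc : ∀ T : Finset ι, T.card = s + 1 → piT T b (c T) = 0 := by
    intro T hT
    have h1 := hpB T hT _ (Van_le_Blk R s hc2)
    rw [map_add, hpB T hT v hb, zero_add, map_sum, Finset.sum_eq_single T] at h1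
    · exact h1
    · intro T' hT' hne
      have hT'c := (Finset.mem_filter.1 hT').2
      refine piT_zero b (hc T' hT'c).1 fun h2 => hne ?_
      exact (Finset.eq_of_subset_of_card_le h2 (by omega)).symm
    · exact fun h2 => absurd (Finset.mem_filter.2 ⟨Finset.mem_univ T, hT⟩) h2
  have hcV : ∀ T : Finset ι, T.card = s + 1 → c T ∈ Van ι R s := by
    intro T hT
    obtain ⟨F, hF, hFs⟩ := piT_split b (hc T hT).1 (hpc T hT)
    obtain ⟨g, hg1, hg2, hg3⟩ := pig (s + 1) T R hT h F hF (fun x hx => by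
      rw [← hFs]
      exact (hc T hT).2 x hx)
    have h1 : c T = ∑ i ∈ T, fun x => F i x + ∑ j ∈ T.erase i, g i j x := by
      funext x
      rw [Finset.sum_apply, Finset.sum_add_distrib, ← hFs, sym_sum T (fun i j => g i j x) fun i j => by rw [hg1],
        add_zero]
    rw [h1]
    refine Submodule.sum_mem _ fun i hi => Submodule.subset_span ⟨T.erase i, ?_, ?_, fun x hx => ?_⟩
    · rw [Finset.card_erase_of_mem hi, hT]
      exact le_rfl
    · refine (hF i hi).add (Dep.sum _ fun j hj => ?_)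
      have hj' := Finset.mem_erase.1 hj
      exact (hg2 i hi j hj'.2 (Ne.symm hj'.1)).mono (Finset.erase_subset _ _)
    · show F i x + ∑ j ∈ T.erase i, g i j x = 0
      rw [hg3 i hi x hx]
      exact two_zero _
  have h1 : v = (v + ∑ T ∈ Finset.univ.filter (fun T : Finset ι => T.card = s + 1), c T) +
      ∑ T ∈ Finset.univ.filter (fun T : Finset ι => T.card = s + 1), c T := by
    funext x
    simp only [Pi.add_apply]
    rw [add_assoc, two_zero, add_zero]
  rw [h1]
  refine Submodule.add_mem _ hc2 (Submodule.sum_mem _ fun T hT => hcV T (Finset.mem_filter.1 hT).2)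

theorem ext_all [Fintype ι] [Fintype H] {R : Finset H} {r d : ℕ} (h : R.card + 2 * r ≤ Fintype.card H + 1)
    (hd : d ≤ r) {v : (ι → H) → ZMod 2} (hv : v ∈ Van ι R r) (hb : v ∈ Blk ι H d) : v ∈ Van ι R d := by
  obtain ⟨k, rfl⟩ := Nat.exists_eq_add_of_le hd
  clear hd
  induction k with
  | zero => exact hv
  | succ k ih =>
    exact ih (by omega) (ext (by omega) hv (Blk_mono (Nat.le_add_right d k) hb))

theorem one_notMem [Fintype ι] [Fintype H] {R : Finset H} {r : ℕ} (h : R.card + 2 * r ≤ Fintype.card H + 1)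
    (hne : Nonempty (ι → H)) : (1 : (ι → H) → ZMod 2) ∉ Van ι R r := by
  intro h1
  have h2 : (1 : (ι → H) → ZMod 2) ∈ Blk ι H 0 :=
    Submodule.subset_span ⟨∅, le_rfl, fun _ _ _ => rfl⟩
  have h3 := ext_all h (Nat.zero_le r) h1 h2
  have h4 : Van ι R 0 ≤ ⊥ := by
    refine Submodule.span_le.2 ?_
    rintro f ⟨T, hT, _, hf0⟩
    have hT0 : T = ∅ := Finset.card_eq_zero.1 (Nat.le_zero.1 hT)
    subst hT0
    show f ∈ (⊥ : Submodule (ZMod 2) ((ι → H) → ZMod 2))
    rw [Submodule.mem_bot]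
    funext x
    exact hf0 x ⟨fun i hi => absurd hi (Finset.notMem_empty i), fun i hi => absurd hi (Finset.notMem_empty i)⟩
  have h5 := (Submodule.mem_bot (ZMod 2)).1 (h4 h3)
  obtain ⟨x⟩ := hne
  have h6 := congrFun h5 x
  exact one_ne_zero h6

end H27BP
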