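import Pool.Agent.H27.BP.Kid
import Pool.Agent.H27.BP.Cube
import Pool.Agent.H27.BP.Count

/-!
The spread monomials are independent modulo `Kid` (helper27).
-/

set_option autoImplicit false
open scoped Classical

namespace H27BP

open H96RE

variable {m l : ℕ}

/-- put the pigeons of `P` into the points of their cubes given by `U` -/
noncomputable def zU (P : Finset (Fin m)) (h : Fin m → Fin l → ZMod 2) (U : Finset (Fin m × Fin l))
    (y : Fin m → Fin l → ZMod 2) : Fin m → Fin l → ZMod 2 :=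
  fun i => if i ∈ P then (fun t => if (i, t) ∈ U then 1 else h i t) else y i

/-- sum over the cubes -/
noncomputable def theta (P : Finset (Fin m)) (h : Fin m → Fin l → ZMod 2) (Q : Finset (Fin m × Fin l)) :
    ((Fin m → Fin l → ZMod 2) → ZMod 2) →ₗ[ZMod 2] ((Fin m → Fin l → ZMod 2) → ZMod 2) where
  toFun F := fun y => ∑ U ∈ Q.powerset, F (zU P h U y)
  map_add' F G := by
    funext y
    simp only [Pi.add_apply, Finset.sum_add_distrib]
  map_smul' c F := by
    funext y
    simp only [Pi.smul_apply, smul_eq_mul, Finset.mul_sum, RingHom.id_apply]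

/-- the monomial of a set of bits, on configurations -/
def monoY (T : Finset (Fin m × Fin l)) (y : Fin m → Fin l → ZMod 2) : ZMod 2 := ∏ p ∈ T, y p.1 p.2

theorem theta_mono_zero (P : Finset (Fin m)) (h : Fin m → Fin l → ZMod 2) {Q T : Finset (Fin m × Fin l)}
    (hQT : ¬ Q ⊆ T) : theta P h Q (monoY T) = 0 := by
  obtain ⟨p, hp, hpT⟩ := Finset.not_subset.1 hQT
  funext y
  show ∑ U ∈ Q.powerset, monoY T (zU P h U y) = 0
  have h1 : Q.powerset = (insert p (Q.erase p)).powerset := by rw [Finset.insert_erase hp]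
  rw [h1, Finset.sum_powerset_insert (Finset.notMem_erase p Q)]
  have h2 : ∑ U ∈ (Q.erase p).powerset, monoY T (zU P h (insert p U) y) =
      ∑ U ∈ (Q.erase p).powerset, monoY T (zU P h U y) := by
    refine Finset.sum_congr rfl fun U _ => Finset.prod_congr rfl fun r hr => ?_
    have hrp : r ≠ p := fun h3 => hpT (h3 ▸ hr)
    unfold zU
    by_cases h4 : r.1 ∈ P
    · rw [if_pos h4, if_pos h4]
      show (if (r.1, r.2) ∈ insert p U then (1 : ZMod 2) else h r.1 r.2) = if (r.1, r.2) ∈ U then 1 else h r.1 r.2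
      rw [Prod.mk.eta]
      by_cases h5 : r ∈ U
      · rw [if_pos h5, if_pos (Finset.mem_insert_of_mem h5)]
      · rw [if_neg h5, if_neg fun h6 => (Finset.mem_insert.1 h6).elim hrp h5]
    · rw [if_neg h4, if_neg h4]
  rw [h2]
  exact two_zero _

theorem theta_mono_self (P : Finset (Fin m)) (h : Fin m → Fin l → ZMod 2) {Q : Finset (Fin m × Fin l)}
    (hP : ∀ p ∈ Q, p.1 ∈ P) (hh : ∀ p ∈ Q, h p.1 p.2 = 0) : theta P h Q (monoY Q) = 1 := by
  funext y
  show ∑ U ∈ Q.powerset, monoY Q (zU P h U y) = 1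
  rw [Finset.sum_eq_single Q]
  · refine Finset.prod_eq_one fun p hp => ?_
    unfold zU
    rw [if_pos (hP p hp)]
    exact if_pos hp
  · intro U hU hne
    have h1 : ¬ Q ⊆ U := fun h2 => hne (Finset.Subset.antisymm (Finset.mem_powerset.1 hU) h2)
    obtain ⟨p, hp, hpU⟩ := Finset.not_subset.1 h1
    refine Finset.prod_eq_zero hp ?_
    unfold zU
    rw [if_pos (hP p hp)]
    show (if (p.1, p.2) ∈ U then (1 : ZMod 2) else h p.1 p.2) = 0
    rw [Prod.mk.eta, if_neg hpU]
    exact hh p hp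
  · exact fun h1 => absurd (Finset.mem_powerset_self Q) h1

/-- the cube of a pigeon -/
noncomputable def cub (h : Fin m → Fin l → ZMod 2) (B : Fin m → Finset (Fin l)) (i : Fin m) : Finset (Fin l → ZMod 2) :=
  Finset.univ.filter fun w => ∀ t, t ∉ B i → w t = h i t

theorem card_cub (h : Fin m → Fin l → ZMod 2) (B : Fin m → Finset (Fin l)) (i : Fin m) :
    (cub h B i).card ≤ 2 ^ (B i).card := by
  have h1 : (cub h B i).card ≤ Fintype.card (B i → ZMod 2) := by
    rw [← Fintype.card_coe]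
    refine Fintype.card_le_of_injective (fun w t => (w : Fin l → ZMod 2) t) ?_
    intro w w' hww
    apply Subtype.ext
    funext t
    by_cases ht : t ∈ B i
    · exact congrFun hww ⟨t, ht⟩
    · rw [(Finset.mem_filter.1 w.2).2 t ht, (Finset.mem_filter.1 w'.2).2 t ht]
  rwa [Fintype.card_fun, ZMod.card, Fintype.card_coe] at h1

theorem theta_Van (P : Finset (Fin m)) (h : Fin m → Fin l → ZMod 2) (B : Fin m → Finset (Fin l))
    {Q : Finset (Fin m × Fin l)} (hQ : ∀ p ∈ Q, p.2 ∈ B p.1)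
    (hdis : ∀ i ∈ P, ∀ j ∈ P, i ≠ j → ∀ w : Fin l → ZMod 2, (∀ t, t ∉ B i → w t = h i t) →
      ¬ ∀ t, t ∉ B j → w t = h j t) {E : ℕ} {F : (Fin m → Fin l → ZMod 2) → ZMod 2}
    (hF : F ∈ Van (Fin m) (∅ : Finset (Fin l → ZMod 2)) E) :
    theta P h Q F ∈ Van (Fin m) (P.biUnion (cub h B)) E := by
  have h1 : Van (Fin m) (∅ : Finset (Fin l → ZMod 2)) E ≤ (Van (Fin m) (P.biUnion (cub h B)) E).comap (theta P h Q) := by
    refine Submodule.span_le.2 ?_
    rintro v ⟨T, hT, hvd, hv0⟩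
    have h2 : theta P h Q v = ∑ U ∈ Q.powerset, fun y => v (zU P h U y) := by
      funext y
      rw [Finset.sum_apply]
      rfl
    show theta P h Q v ∈ Van (Fin m) (P.biUnion (cub h B)) E
    rw [h2]
    refine Submodule.sum_mem _ fun U hU => Submodule.subset_span ⟨T \ P, ?_, ?_, fun y hy => ?_⟩
    · exact (Finset.card_le_card Finset.sdiff_subset).trans hT
    · intro y y' hyy
      refine hvd _ _ fun i hi => ?_
      unfold zU
      by_cases hiP : i ∈ P
      · rw [if_pos hiP, if_pos hiP]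
      · rw [if_neg hiP, if_neg hiP]
        exact hyy i (Finset.mem_sdiff.2 ⟨hi, hiP⟩)
    · have hz : ∀ i ∈ P, ∀ t, t ∉ B i → zU P h U y i t = h i t := by
        intro i hi t ht
        unfold zU
        rw [if_pos hi]
        exact if_neg fun h3 => ht (hQ (i, t) (Finset.mem_powerset.1 hU h3))
      have hzy : ∀ i, i ∉ P → zU P h U y i = y i := fun i hi => if_neg hi
      have hmem : ∀ i ∈ P, zU P h U y i ∈ P.biUnion (cub h B) := fun i hi =>
        Finset.mem_biUnion.2 ⟨i, hi, Finset.mem_filter.2 ⟨Finset.mem_univ _, hz i hi⟩⟩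
      refine hv0 _ ⟨fun i _ => Finset.notMem_empty _, fun i hi j hj hij => ?_⟩
      by_contra hne
      by_cases hiP : i ∈ P
      · by_cases hjP : j ∈ P
        · refine hdis i hiP j hjP hne (zU P h U y i) (hz i hiP) fun t ht => ?_
          rw [hij]
          exact hz j hjP t ht
        · refine hy.1 j (Finset.mem_sdiff.2 ⟨hj, hjP⟩) ?_
          rw [← hzy j hjP, ← hij]
          exact hmem i hiP
      · by_cases hjP : j ∈ P
        · refine hy.1 i (Finset.mem_sdiff.2 ⟨hi, hiP⟩) ?_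
          rw [← hzy i hiP, hij]
          exact hmem j hjP
        · rw [hzy i hiP, hzy j hjP] at hij
          exact hne (hy.2 i (Finset.mem_sdiff.2 ⟨hi, hiP⟩) j (Finset.mem_sdiff.2 ⟨hj, hjP⟩) hij)
  exact h1 hF

/-- the bits of a set of indices -/
def bits (T : Finset (Fin (m * l))) : Finset (Fin m × Fin l) := T.map finProdFinEquiv.symm.toEmbedding

theorem pull_mono (T : Finset (Fin (m * l))) : pull m l (mono T) = monoY (bits T) := by
  funext y
  show ∏ k ∈ T, toX y k = ∏ p ∈ bits T, y p.1 p.2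
  unfold bits
  rw [Finset.prod_map]
  rfl

theorem indep {D E : ℕ} (hD : 16 * D ≤ 2 ^ l) (hE : 16 * D + 2 * E ≤ 2 ^ l + 1)
    (G : Finset (Finset (Fin (m * l))))
    (hG : ∀ T ∈ G, T.card = D ∧ ∑ i, (4 ^ (blk (bits T) i).card - 1) ≤ 12 * D) :
    Disjoint (Submodule.span (ZMod 2) (mono '' (G : Set (Finset (Fin (m * l)))))) (Kid m l E) := by
  rw [Submodule.disjoint_def]
  intro f hf hfK
  by_contra hf0
  obtain ⟨c, hc⟩ := (Submodule.mem_span_image_finset_iff_exists_fun' (ZMod 2)).1 hf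
  obtain ⟨T0, hT0, hcT0⟩ : ∃ T0 ∈ G, c T0 ≠ 0 := by
    by_contra hcon
    push Not at hcon
    apply hf0
    rw [← hc]
    exact Finset.sum_eq_zero fun T hT => by rw [hcon T hT, zero_smul]
  obtain ⟨Q, hQ⟩ : ∃ Q, Q = bits T0 := ⟨_, rfl⟩
  obtain ⟨P, hP⟩ : ∃ P : Finset (Fin m), P = Finset.univ.filter (fun i => (blk Q i).Nonempty) := ⟨_, rfl⟩
  have hPm : ∀ i, i ∈ P ↔ (blk Q i).Nonempty := by
    intro i
    rw [hP, Finset.mem_filter]
    exact ⟨fun h => h.2, fun h => ⟨Finset.mem_univ _, h⟩⟩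
  have hQb : ∀ p ∈ Q, p.2 ∈ blk Q p.1 := fun p hp => Finset.mem_filter.2 ⟨Finset.mem_univ _, hp⟩
  have hsum4 : ∑ i ∈ P, 4 ^ (blk Q i).card ≤ 16 * D := by
    have h1 : ∀ i ∈ P, 3 * 4 ^ (blk Q i).card ≤ 4 * (4 ^ (blk Q i).card - 1) := by
      intro i hi
      have h2 : 1 ≤ (blk Q i).card := Finset.card_pos.2 ((hPm i).1 hi)
      have h3 : 4 ^ 1 ≤ 4 ^ (blk Q i).card := Nat.pow_le_pow_right (by norm_num) h2
      omega
    have h2 := Finset.sum_le_sum h1
    rw [← Finset.mul_sum, ← Finset.mul_sum] at h2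
    have h3 : ∑ i ∈ P, (4 ^ (blk Q i).card - 1) ≤ ∑ i, (4 ^ (blk Q i).card - 1) :=
      Finset.sum_le_sum_of_subset (Finset.subset_univ P)
    have h4 := (hG T0 hT0).2
    rw [← hQ] at h4
    omega
  obtain ⟨h, hh0, hdis⟩ := cubes P (blk Q) (hsum4.trans hD)
  have hR : (P.biUnion (cub h (blk Q))).card ≤ 16 * D := by
    refine (Finset.card_biUnion_le).trans (le_trans (Finset.sum_le_sum fun i _ => ?_) hsum4)
    exact (card_cub h (blk Q) i).trans (Nat.pow_le_pow_left (by norm_num) _)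
  have hθ := theta_Van P h (blk Q) hQb hdis hfK
  have hθ1 : theta P h Q (pull m l f) = c T0 • 1 := by
    rw [← hc, map_sum, map_sum, Finset.sum_eq_single T0]
    · rw [map_smul, map_smul, pull_mono, ← hQ, theta_mono_self P h (fun p hp => (hPm p.1).2 ⟨p.2, hQb p hp⟩)
        (fun p hp => hh0 p.1 ((hPm p.1).2 ⟨p.2, hQb p hp⟩) p.2 (hQb p hp))]
    · intro T hT hne
      have h1 : ¬ Q ⊆ bits T := by
        rw [hQ]
        unfold bits
        rw [Finset.map_subset_map]
        intro h2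
        exact hne (Finset.eq_of_subset_of_card_le h2 (by rw [(hG T hT).1, (hG T0 hT0).1])).symm
      rw [map_smul, map_smul, pull_mono, theta_mono_zero P h h1, smul_zero]
    · exact fun h1 => absurd hT0 h1
  have hc1 : c T0 = 1 := by
    have h1 : ∀ a : ZMod 2, a ≠ 0 → a = 1 := by decide
    exact h1 _ hcT0
  rw [hθ1, hc1, one_smul] at hθ
  refine one_notMem ?_ ⟨fun _ _ => 0⟩ hθ
  rw [Fintype.card_fun, ZMod.card, Fintype.card_fin]
  omega

end H27BP
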