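import Pool.Agent.H27.BP.Ext
import Pool.Agent.H96.RE.PolRM

/-!
The space `Kid m l E` of functions on the bits which come from `Van` (helper27).
-/

set_option autoImplicit false
open scoped Classical

namespace H27BP

open H96RE

/-- the bits as a vector -/
def toX {m l : ℕ} (y : Fin m → Fin l → ZMod 2) : Fin (m * l) → ZMod 2 :=
  fun k => y (finProdFinEquiv.symm k).1 (finProdFinEquiv.symm k).2

/-- the configuration of a vector of bits -/
def toY {m l : ℕ} (x : Fin (m * l) → ZMod 2) : Fin m → Fin l → ZMod 2 :=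
  fun i t => x (finProdFinEquiv (i, t))

theorem toX_toY {m l : ℕ} (x : Fin (m * l) → ZMod 2) : toX (toY x) = x := by
  funext k
  show x (finProdFinEquiv ((finProdFinEquiv.symm k).1, (finProdFinEquiv.symm k).2)) = x k
  rw [Prod.mk.eta, Equiv.apply_symm_apply]

theorem toY_toX {m l : ℕ} (y : Fin m → Fin l → ZMod 2) : toY (toX y) = y := by
  funext i t
  show y (finProdFinEquiv.symm (finProdFinEquiv (i, t))).1 (finProdFinEquiv.symm (finProdFinEquiv (i, t))).2 = y i t
  rw [Equiv.symm_apply_apply]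

/-- a function of the bits as a function of the configuration -/
def pull (m l : ℕ) : ((Fin (m * l) → ZMod 2) → ZMod 2) →ₗ[ZMod 2] ((Fin m → Fin l → ZMod 2) → ZMod 2) where
  toFun g := fun y => g (toX y)
  map_add' _ _ := rfl
  map_smul' _ _ := rfl

theorem pull_apply {m l : ℕ} (g : (Fin (m * l) → ZMod 2) → ZMod 2) (y : Fin m → Fin l → ZMod 2) :
    pull m l g y = g (toX y) := rfl

theorem pull_mul {m l : ℕ} (g h : (Fin (m * l) → ZMod 2) → ZMod 2) : pull m l (g * h) = pull m l g * pull m l h := rfl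

theorem pull_Pol {m l d : ℕ} {g : (Fin (m * l) → ZMod 2) → ZMod 2} (hg : g ∈ Pol (m * l) d) :
    pull m l g ∈ Blk (Fin m) (Fin l → ZMod 2) d := by
  have h1 : Pol (m * l) d ≤ (Blk (Fin m) (Fin l → ZMod 2) d).comap (pull m l) := by
    unfold Pol
    refine Submodule.span_le.2 ?_
    rintro _ ⟨T, hT, rfl⟩
    refine Submodule.subset_span ⟨T.image fun k => (finProdFinEquiv.symm k).1, Finset.card_image_le.trans hT, ?_⟩
    intro y y' hyy
    show ∏ k ∈ T, toX y k = ∏ k ∈ T, toX y' k
    refine Finset.prod_congr rfl fun k hk => ?_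
    show y (finProdFinEquiv.symm k).1 (finProdFinEquiv.symm k).2 = y' (finProdFinEquiv.symm k).1 (finProdFinEquiv.symm k).2
    rw [hyy _ (Finset.mem_image_of_mem _ hk)]
  exact h1 hg

/-- the pseudo-ideal -/
def Kid (m l E : ℕ) : Submodule (ZMod 2) ((Fin (m * l) → ZMod 2) → ZMod 2) :=
  (Van (Fin m) (∅ : Finset (Fin l → ZMod 2)) E).comap (pull m l)

theorem Kid_mul {m l E a b : ℕ} (hE : 2 * E ≤ 2 ^ l + 1) {g h : (Fin (m * l) → ZMod 2) → ZMod 2} (hg : g ∈ Kid m l E)
    (ha : g ∈ Pol (m * l) a) (hb : h ∈ Pol (m * l) b) (hab : a + b ≤ E) : g * h ∈ Kid m l E := by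
  have h1 : pull m l g ∈ Van (Fin m) (∅ : Finset (Fin l → ZMod 2)) a := by
    refine ext_all (r := E) ?_ (by omega) hg (pull_Pol ha)
    rw [Finset.card_empty, zero_add, Fintype.card_fun, ZMod.card, Fintype.card_fin]
    exact hE
  show pull m l (g * h) ∈ Van (Fin m) (∅ : Finset (Fin l → ZMod 2)) E
  rw [pull_mul]
  exact Van_mono _ hab (Van_mul h1 (pull_Pol hb))

/-- the indicator of a collision -/
theorem Kid_ax {m l E : ℕ} (hE : 2 ≤ E) {i j : Fin m} (hij : i ≠ j) :
    ∃ c ∈ Kid m l E, c ∈ Pol (m * l) l ∧ ∀ x, toY x i = toY x j → c x = 1 := by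
  obtain ⟨c, hc⟩ : ∃ c : (Fin (m * l) → ZMod 2) → ZMod 2, c = ∏ t : Fin l,
      ((fun x => 1 + (toY x i t + toY x j t)) : (Fin (m * l) → ZMod 2) → ZMod 2) := ⟨_, rfl⟩
  have hcx : ∀ x, c x = ∏ t : Fin l, (1 + (toY x i t + toY x j t)) := by
    intro x
    rw [hc, Finset.prod_apply]
  refine ⟨c, ?_, ?_, fun x hx => ?_⟩
  · refine Submodule.subset_span ⟨{i, j}, (Finset.card_le_two).trans hE, ?_, fun y hy => ?_⟩
    · intro y y' hyy
      rw [pull_apply, pull_apply, hcx, hcx, toY_toX, toY_toX,
        hyy i (Finset.mem_insert_self i _), hyy j (Finset.mem_insert_of_mem (Finset.mem_singleton_self j))]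
    · rw [pull_apply, hcx, toY_toX]
      have h1 : y i ≠ y j := fun h => hij (hy.2 i (Finset.mem_insert_self i _) j
        (Finset.mem_insert_of_mem (Finset.mem_singleton_self j)) h)
      obtain ⟨t, ht⟩ := Function.ne_iff.1 h1
      refine Finset.prod_eq_zero (Finset.mem_univ t) ?_
      revert ht
      generalize y i t = a
      generalize y j t = b
      revert a b
      decide
  · rw [hc]
    have hlin : ∀ t : Fin l, ((fun x => 1 + (toY x i t + toY x j t)) : (Fin (m * l) → ZMod 2) → ZMod 2) ∈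
        Pol (m * l) 1 := by
      intro t
      have h1 : ((fun x => 1 + (toY x i t + toY x j t)) : (Fin (m * l) → ZMod 2) → ZMod 2) =
          (fun _ => 1) + (mono {finProdFinEquiv (i, t)} + mono {finProdFinEquiv (j, t)}) := by
        funext x
        show 1 + (x (finProdFinEquiv (i, t)) + x (finProdFinEquiv (j, t))) =
          1 + ((∏ k ∈ {finProdFinEquiv (i, t)}, x k) + ∏ k ∈ {finProdFinEquiv (j, t)}, x k)
        rw [Finset.prod_singleton, Finset.prod_singleton]
      rw [h1]
      exact Submodule.add_mem _ (const_mem 1) (Submodule.add_mem _ (mono_mem (by simp)) (mono_mem (by simp)))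
    have hprod : ∀ s : Finset (Fin l), (∏ t ∈ s,
        ((fun x => 1 + (toY x i t + toY x j t)) : (Fin (m * l) → ZMod 2) → ZMod 2)) ∈ Pol (m * l) s.card := by
      intro s
      induction s using Finset.induction_on with
      | empty =>
        rw [Finset.prod_empty]
        exact const_mem 1
      | insert t s hts ih =>
        rw [Finset.prod_insert hts, Finset.card_insert_of_notMem hts, add_comm]
        exact Pol_mul (hlin t) ih
    have h2 := hprod Finset.univ
    rwa [Finset.card_univ, Fintype.card_fin] at h2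
  · rw [hcx, hx]
    refine Finset.prod_eq_one fun t _ => ?_
    rw [two_zero, add_zero]

end H27BP
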