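import Mathlib

/-!
ROW BXNum (numerics; about 120 lines).
`mode`: with `q = D / (v - D)`, `0 < q`, `q ≤ 1/2`, `q ≥ D / v`, `C(v,i) q^i ≤ C(v,D) q^D` for all `i ≤ v` (the ratio `C(v,i+1) q / C(v,i) = q (v - i)/(i + 1)` is `≥ 1` iff `i + 1 ≤ q (v - i)` iff
`(i+1)(v-D) ≤ D (v-i)`, true for `i + 1 ≤ D`, and `≤ 1` for `i ≥ D`: `D (v - i) ≤ (i+1)(v - D)`); so `(1+q)^v = ∑_(i ≤ v) C(v,i) q^i ≤ (v+1) C(v,D) q^D` (`add_pow`).
`final`: `u = 2^(l-6)`, `D = u`, `v = m l`, `w = 5 u / (e f)` (natural division), `q` from `mode` (`3 D ≤ v`).  Put `X = u (u / v)^e / (e f)` (real), claim `exp (2 X) ≤ 2 (v + 1) N`.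
 If `u < e f`: `X ≤ 1/2·…`: `u / v ≤ 1/64`, so `2 X ≤ 1`, `exp 1 ≤ 4 ≤ 2 (v + 1) N` (`N ≥ 1`, `v ≥ 1`).
 If `e f ≤ u`: `w ≥ 4 u / (e f)` (real: `5u/(ef) - 1 ≥ 4u/(ef)`), and from the hypothesis `h` (for this `q`, `w`) and `mode`: `C(v,D) q^D / 2 ≤ N (1 - q^e/2)^w (v+1) C(v,D) q^D`, so
 `1 ≤ 2 (v+1) N (1 - q^e/2)^w ≤ 2 (v+1) N exp (- q^e w / 2)`, `q^e w / 2 ≥ (u/v)^e * 2 u / (e f) = 2 X`.
-/

set_option autoImplicit false
open scoped Classical

namespace H27BP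

theorem mode {v D : ℕ} (hD : 1 ≤ D) (h : 3 * D ≤ v) :
    ∃ q : ℝ, 0 < q ∧ q < 1 ∧ (D : ℝ) / v ≤ q ∧ (1 + q) ^ v ≤ (v + 1) * (v.choose D * q ^ D) := by
  have hDR : (1 : ℝ) ≤ D := by exact_mod_cast hD
  have hR : 3 * (D : ℝ) ≤ v := by exact_mod_cast h
  have hvD : (0 : ℝ) < (v : ℝ) - D := by linarith
  obtain ⟨q, hq⟩ : ∃ q : ℝ, q = (D : ℝ) / ((v : ℝ) - D) := ⟨_, rfl⟩
  have hq0 : 0 < q := by rw [hq]; positivity
  have hqm : q * ((v : ℝ) - D) = D := by rw [hq]; field_simp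
  have hq1 : q < 1 := by
    rw [hq, div_lt_one hvD]
    linarith
  refine ⟨q, hq0, hq1, ?_, ?_⟩
  · rw [hq]
    exact div_le_div_of_nonneg_left (by linarith) hvD (by linarith)
  obtain ⟨a, ha⟩ : ∃ a : ℕ → ℝ, a = fun i => (v.choose i : ℝ) * q ^ i := ⟨_, rfl⟩
  have hap : ∀ i, 0 ≤ a i := fun i => by rw [ha]; positivity
  have hstep : ∀ i, i ≤ v → a (i + 1) * ((i : ℝ) + 1) = a i * (((v : ℝ) - i) * q) := by
    intro i hi
    have h1 := Nat.choose_succ_right_eq v i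
    have h2 : (v.choose (i + 1) : ℝ) * ((i : ℝ) + 1) = (v.choose i : ℝ) * ((v : ℝ) - i) := by
      rw [← Nat.cast_sub hi]
      exact_mod_cast h1
    rw [ha]
    dsimp only
    rw [pow_succ]
    calc (v.choose (i + 1) : ℝ) * (q ^ i * q) * ((i : ℝ) + 1)
        = ((v.choose (i + 1) : ℝ) * ((i : ℝ) + 1)) * (q ^ i * q) := by ring
      _ = _ := by rw [h2]; ring
  have hup : ∀ i, i + 1 ≤ D → a i ≤ a (i + 1) := by
    intro i hi
    have hiR : (i : ℝ) + 1 ≤ D := by exact_mod_cast hi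
    have h1 := hstep i (by omega)
    have h2 : (i : ℝ) + 1 ≤ ((v : ℝ) - i) * q := by
      by_contra hcon
      push Not at hcon
      have h3 : ((v : ℝ) - i) * q * ((v : ℝ) - D) < ((i : ℝ) + 1) * ((v : ℝ) - D) :=
        mul_lt_mul_of_pos_right hcon hvD
      have h4 : ((v : ℝ) - i) * q * ((v : ℝ) - D) = ((v : ℝ) - i) * D := by
        rw [mul_assoc, hqm]
      rw [h4] at h3
      have h5 : 0 ≤ ((D : ℝ) - (i + 1)) * v := mul_nonneg (by linarith) (by linarith)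
      nlinarith
    have h3 : a i * ((i : ℝ) + 1) ≤ a (i + 1) * ((i : ℝ) + 1) := by
      rw [h1]
      exact mul_le_mul_of_nonneg_left h2 (hap i)
    exact le_of_mul_le_mul_right h3 (by positivity)
  have hdn : ∀ i, D ≤ i → i + 1 ≤ v → a (i + 1) ≤ a i := by
    intro i hi hiv
    have hiR : (D : ℝ) ≤ i := by exact_mod_cast hi
    have h1 := hstep i (by omega)
    have h2 : ((v : ℝ) - i) * q ≤ (i : ℝ) + 1 := by
      by_contra hcon
      push Not at hcon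
      have h3 : ((i : ℝ) + 1) * ((v : ℝ) - D) < ((v : ℝ) - i) * q * ((v : ℝ) - D) :=
        mul_lt_mul_of_pos_right hcon hvD
      have h4 : ((v : ℝ) - i) * q * ((v : ℝ) - D) = ((v : ℝ) - i) * D := by
        rw [mul_assoc, hqm]
      rw [h4] at h3
      have h5 : 0 ≤ ((i : ℝ) - D) * v := mul_nonneg (by linarith) (by linarith)
      nlinarith
    have h3 : a (i + 1) * ((i : ℝ) + 1) ≤ a i * ((i : ℝ) + 1) := by
      rw [h1]
      exact mul_le_mul_of_nonneg_left h2 (hap i)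
    exact le_of_mul_le_mul_right h3 (by positivity)
  have hle1 : ∀ k, k ≤ D → a (D - k) ≤ a D := by
    intro k
    induction k with
    | zero => intro _; simp
    | succ k ih =>
      intro hk
      have h1 := hup (D - (k + 1)) (by omega)
      rw [show D - (k + 1) + 1 = D - k by omega] at h1
      exact h1.trans (ih (by omega))
  have hle2 : ∀ k, D + k ≤ v → a (D + k) ≤ a D := by
    intro k
    induction k with
    | zero => intro _; simp
    | succ k ih =>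
      intro hk
      have h1 := hdn (D + k) (by omega) (by omega)
      exact h1.trans (ih (by omega))
  have hle : ∀ i, i ≤ v → a i ≤ a D := by
    intro i hi
    rcases le_total i D with h1 | h1
    · have := hle1 (D - i) (by omega)
      rwa [show D - (D - i) = i by omega] at this
    · have := hle2 (i - D) (by omega)
      rwa [show D + (i - D) = i by omega] at this
  rw [add_comm (1 : ℝ) q, add_pow]
  calc ∑ i ∈ Finset.range (v + 1), q ^ i * 1 ^ (v - i) * (v.choose i : ℝ)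
      ≤ ∑ i ∈ Finset.range (v + 1), a D := by
        refine Finset.sum_le_sum fun i hi => ?_
        have h1 := hle i (by rw [Finset.mem_range] at hi; omega)
        rw [one_pow, mul_one, mul_comm]
        have h2 : a i = (v.choose i : ℝ) * q ^ i := by rw [ha]
        rw [← h2]
        exact h1
    _ = (v + 1) * (v.choose D * q ^ D) := by
        rw [Finset.sum_const, Finset.card_range, nsmul_eq_mul, ha]
        push_cast
        ring

theorem final {m l e f N : ℕ} (hl : 8 ≤ l) (hm : 2 ^ l < m) (he : 1 ≤ e) (hf : 1 ≤ f) (hN : 1 ≤ N)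
    (h : ∀ (q : ℝ) (w : ℕ), 0 < q → q < 1 → e * w * f ≤ 5 * 2 ^ (l - 6) →
      ((m * l).choose (2 ^ (l - 6)) : ℝ) * q ^ 2 ^ (l - 6) ≤ 2 * (N * ((1 - q ^ e / 2) ^ w * (1 + q) ^ (m * l)))) :
    Real.exp (2 ^ (l - 5) * (2 ^ (l - 6) / (m * l)) ^ e / (e * f)) ≤ 2 * (m * l + 1) * N := by
  obtain ⟨u, hu⟩ : ∃ u : ℕ, u = 2 ^ (l - 6) := ⟨_, rfl⟩
  obtain ⟨v, hv⟩ : ∃ v : ℕ, v = m * l := ⟨_, rfl⟩
  have hu1 : 1 ≤ u := by rw [hu]; exact Nat.one_le_two_pow
  have h64 : 2 ^ l = 64 * u := by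
    rw [hu, show (64 : ℕ) = 2 ^ 6 by norm_num, ← pow_add]
    congr 1
    omega
  have huv : 64 * u ≤ v := by
    rw [hv, ← h64]
    calc 2 ^ l ≤ m := hm.le
      _ = m * 1 := (mul_one m).symm
      _ ≤ m * l := Nat.mul_le_mul_left m (by omega)
  have hcu : (2 : ℝ) ^ (l - 6) = (u : ℝ) := by rw [hu]; push_cast; rfl
  have hcu2 : (2 : ℝ) ^ (l - 5) = 2 * (u : ℝ) := by
    rw [← hcu, ← pow_succ']
    congr 1
    omega
  have hcv : (m : ℝ) * l = (v : ℝ) := by rw [hv]; push_cast; rfl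
  rw [hcu, hcu2, hcv]
  rw [← hu, ← hv] at h
  have huR : (1 : ℝ) ≤ u := by exact_mod_cast hu1
  have huvR : 64 * (u : ℝ) ≤ v := by exact_mod_cast huv
  have hvR : (1 : ℝ) ≤ v := by linarith
  have heR : (1 : ℝ) ≤ e := by exact_mod_cast he
  have hfR : (1 : ℝ) ≤ f := by exact_mod_cast hf
  have hNR : (1 : ℝ) ≤ N := by exact_mod_cast hN
  have hef : (0 : ℝ) < (e : ℝ) * f := by positivity
  have hr0 : (0 : ℝ) ≤ (u : ℝ) / v := by positivity
  have hr1 : (u : ℝ) / v ≤ 1 / 64 := by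
    rw [div_le_div_iff₀ (by linarith) (by norm_num)]
    linarith
  have hre : ((u : ℝ) / v) ^ e ≤ 1 / 64 := by
    calc ((u : ℝ) / v) ^ e ≤ ((u : ℝ) / v) ^ 1 :=
          pow_le_pow_of_le_one hr0 (by linarith) he
      _ ≤ 1 / 64 := by rw [pow_one]; exact hr1
  have hre0 : 0 ≤ ((u : ℝ) / v) ^ e := pow_nonneg hr0 e
  by_cases hc : u < e * f
  · have hcR : (u : ℝ) ≤ (e : ℝ) * f := by exact_mod_cast hc.le
    have h1 : 2 * (u : ℝ) * ((u : ℝ) / v) ^ e / ((e : ℝ) * f) ≤ 1 := by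
      rw [div_le_one hef]
      nlinarith
    have h2 : Real.exp (2 * (u : ℝ) * ((u : ℝ) / v) ^ e / ((e : ℝ) * f)) ≤ Real.exp 1 :=
      Real.exp_le_exp.2 h1
    have h3 := Real.exp_one_lt_d9
    have h4 : (4 : ℝ) ≤ 2 * ((v : ℝ) + 1) * N := by nlinarith
    linarith
  · push Not at hc
    have hcR : (e : ℝ) * f ≤ u := by exact_mod_cast hc
    obtain ⟨w, hw⟩ : ∃ w : ℕ, w = 5 * u / (e * f) := ⟨_, rfl⟩
    have hefN : 0 < e * f := by positivity
    have hw1 : e * w * f ≤ 5 * u := by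
      calc e * w * f = e * f * w := by ring
        _ ≤ 5 * u := by rw [hw]; exact Nat.mul_div_le _ _
    have hw2 : 5 * u < e * f * (w + 1) := by
      have := Nat.lt_mul_div_succ (5 * u) hefN
      rw [hw]
      exact this
    have hw2R : 5 * (u : ℝ) < (e : ℝ) * f * ((w : ℝ) + 1) := by exact_mod_cast hw2
    have hw3 : 4 * (u : ℝ) / ((e : ℝ) * f) ≤ w := by
      rw [div_le_iff₀ hef]
      nlinarith
    obtain ⟨q, hq0, hq1, hq2, hq3⟩ := mode (v := v) (D := u) hu1 (by omega)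
    have h1 := h q w hq0 hq1 hw1
    have hC : (0 : ℝ) < (v.choose u : ℝ) * q ^ u := by
      have : 0 < v.choose u := Nat.choose_pos (by omega)
      positivity
    have hqe0 : 0 ≤ q ^ e := by positivity
    have hqe1 : q ^ e ≤ 1 := pow_le_one₀ hq0.le hq1.le
    have hb0 : 0 ≤ 1 - q ^ e / 2 := by linarith
    have hb : 0 ≤ (1 - q ^ e / 2) ^ w := pow_nonneg hb0 w
    have h2 : (v.choose u : ℝ) * q ^ u ≤
        (2 * ((v : ℝ) + 1) * N * (1 - q ^ e / 2) ^ w) * ((v.choose u : ℝ) * q ^ u) := by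
      refine h1.trans ?_
      have h3 := mul_le_mul_of_nonneg_left hq3 (mul_nonneg (by linarith : (0:ℝ) ≤ 2 * N) hb)
      calc 2 * ((N : ℝ) * ((1 - q ^ e / 2) ^ w * (1 + q) ^ v))
          = 2 * N * (1 - q ^ e / 2) ^ w * (1 + q) ^ v := by ring
        _ ≤ 2 * N * (1 - q ^ e / 2) ^ w * ((v + 1) * (v.choose u * q ^ u)) := h3
        _ = _ := by ring
    have h3 : 1 ≤ 2 * ((v : ℝ) + 1) * N * (1 - q ^ e / 2) ^ w := by
      have h4 : 1 * ((v.choose u : ℝ) * q ^ u) ≤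
          (2 * ((v : ℝ) + 1) * N * (1 - q ^ e / 2) ^ w) * ((v.choose u : ℝ) * q ^ u) := by
        rw [one_mul]
        exact h2
      exact le_of_mul_le_mul_right h4 hC
    have h4 : (1 - q ^ e / 2) ^ w ≤ Real.exp (-(w * (q ^ e / 2))) := by
      have h5 : 1 - q ^ e / 2 ≤ Real.exp (-(q ^ e / 2)) := Real.one_sub_le_exp_neg _
      have h6 := pow_le_pow_left₀ hb0 h5 w
      rw [← Real.exp_nat_mul] at h6
      rw [show -((w : ℝ) * (q ^ e / 2)) = (w : ℝ) * -(q ^ e / 2) by ring]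
      exact h6
    have h5 : 1 ≤ 2 * ((v : ℝ) + 1) * N * Real.exp (-(w * (q ^ e / 2))) :=
      h3.trans (mul_le_mul_of_nonneg_left h4 (by positivity))
    have h6 : Real.exp (w * (q ^ e / 2)) ≤ 2 * ((v : ℝ) + 1) * N := by
      have h7 := mul_le_mul_of_nonneg_right h5 (Real.exp_pos (w * (q ^ e / 2))).le
      rw [one_mul, mul_assoc, ← Real.exp_add, neg_add_cancel, Real.exp_zero, mul_one] at h7
      exact h7
    refine le_trans (Real.exp_le_exp.2 ?_) h6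
    have h7 : ((u : ℝ) / v) ^ e ≤ q ^ e := pow_le_pow_left₀ hr0 hq2 e
    calc 2 * (u : ℝ) * ((u : ℝ) / v) ^ e / ((e : ℝ) * f)
        = (4 * (u : ℝ) / ((e : ℝ) * f)) * (((u : ℝ) / v) ^ e / 2) := by ring
      _ ≤ (w : ℝ) * (q ^ e / 2) := by
        apply mul_le_mul hw3 (by linarith) (by positivity) (by positivity)

end H27BP
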