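import Mathlib

/-!
The pigeon lemma (helper27): acyclicity of the complex of partial injections, in the language of functions.
`Dep T f`: `f` depends only on the coordinates in `T`.  `Good T R`: the pigeons in `T` are in different holes outside `R`.
-/

set_option autoImplicit false
open scoped Classical

namespace H27BP

variable {ι H : Type}

/-- `f` depends only on the coordinates in `T` -/
def Dep (T : Finset ι) (f : (ι → H) → ZMod 2) : Prop := ∀ x y, (∀ i ∈ T, x i = y i) → f x = f y

/-- the configurations in which the pigeons of `T` are in different holes outside `R` -/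
def Good (T : Finset ι) (R : Finset H) : Set (ι → H) :=
  {x | (∀ i ∈ T, x i ∉ R) ∧ ∀ i ∈ T, ∀ j ∈ T, x i = x j → i = j}

theorem Dep.mono {T T' : Finset ι} {f : (ι → H) → ZMod 2} (h : Dep T f) (hT : T ⊆ T') : Dep T' f :=
  fun x y hxy => h x y fun i hi => hxy i (hT hi)

theorem Dep.add {T : Finset ι} {f g : (ι → H) → ZMod 2} (hf : Dep T f) (hg : Dep T g) :
    Dep T (fun x => f x + g x) := fun x y hxy => by
  show f x + g x = f y + g y
  rw [hf x y hxy, hg x y hxy]

theorem Dep.sum {κ : Type} {T : Finset ι} (K : Finset κ) {f : κ → (ι → H) → ZMod 2}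
    (hf : ∀ k ∈ K, Dep T (f k)) : Dep T (fun x => ∑ k ∈ K, f k x) := fun x y hxy =>
  Finset.sum_congr rfl fun k hk => hf k hk x y hxy

/-- `f (x with x_a := h)` does not depend on `x_a` -/
theorem Dep.update {T : Finset ι} {f : (ι → H) → ZMod 2} (hf : Dep T f) (a : ι) (h : H) :
    Dep (T.erase a) (fun x => f (Function.update x a h)) := by
  intro x y hxy
  refine hf _ _ fun i hi => ?_
  by_cases hia : i = a
  · rw [hia, Function.update_self, Function.update_self]
  · rw [Function.update_of_ne hia, Function.update_of_ne hia]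
    exact hxy i (Finset.mem_erase.2 ⟨hia, hi⟩)

theorem Dep.eq_update {T : Finset ι} {f : (ι → H) → ZMod 2} {a : ι} (hf : Dep (T.erase a) f) (x : ι → H) (h : H) :
    f (Function.update x a h) = f x :=
  hf _ _ fun i hi => Function.update_of_ne (Finset.mem_erase.1 hi).1 _ _

theorem good_mono {T T' : Finset ι} {R R' : Finset H} (hT : T' ⊆ T) (hR : R' ⊆ R) {x : ι → H}
    (hx : x ∈ Good T R) : x ∈ Good T' R' :=
  ⟨fun i hi hR' => hx.1 i (hT hi) (hR hR'), fun i hi j hj => hx.2 i (hT hi) j (hT hj)⟩

/-- putting the pigeon `a` into the free hole `h` -/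
theorem good_put {T : Finset ι} {R : Finset H} {a : ι} {h : H} (ha : a ∈ T) (hh : h ∉ R) {x : ι → H}
    (hx : x ∈ Good (T.erase a) (insert h R)) : Function.update x a h ∈ Good T R := by
  refine ⟨fun i hi => ?_, fun i hi j hj hij => ?_⟩
  · by_cases hia : i = a
    · rw [hia, Function.update_self]
      exact hh
    · rw [Function.update_of_ne hia]
      exact fun h2 => hx.1 i (Finset.mem_erase.2 ⟨hia, hi⟩) (Finset.mem_insert_of_mem h2)
  · by_cases hia : i = a
    · by_cases hja : j = a
      · rw [hia, hja]
      · exfalso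
        rw [hia, Function.update_self, Function.update_of_ne hja] at hij
        refine hx.1 j (Finset.mem_erase.2 ⟨hja, hj⟩) ?_
        rw [← hij]
        exact Finset.mem_insert_self h R
    · by_cases hja : j = a
      · exfalso
        rw [hja, Function.update_self, Function.update_of_ne hia] at hij
        refine hx.1 i (Finset.mem_erase.2 ⟨hia, hi⟩) ?_
        rw [hij]
        exact Finset.mem_insert_self h R
      · rw [Function.update_of_ne hia, Function.update_of_ne hja] at hij
        exact hx.2 i (Finset.mem_erase.2 ⟨hia, hi⟩) j (Finset.mem_erase.2 ⟨hja, hj⟩) hij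

/-- removing the pigeon `k`: the others avoid its hole -/
theorem good_del {T : Finset ι} {R : Finset H} {k : ι} (hk : k ∈ T) {x : ι → H}
    (hx : x ∈ Good T R) : x ∈ Good (T.erase k) (insert (x k) R) := by
  refine ⟨fun i hi hR => ?_, fun i hi j hj =>
    hx.2 i (Finset.mem_of_mem_erase hi) j (Finset.mem_of_mem_erase hj)⟩
  obtain ⟨hik, hiT⟩ := Finset.mem_erase.1 hi
  rcases Finset.mem_insert.1 hR with h | h
  · exact hik (hx.2 i hiT k hk h)
  · exact hx.1 i hiT h

theorem two_zero (a : ZMod 2) : a + a = 0 := by
  revert a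
  decide

theorem sym_sum (T : Finset ι) (g : ι → ι → ZMod 2) (hg : ∀ i j, g i j = g j i) :
    ∑ i ∈ T, ∑ j ∈ T.erase i, g i j = 0 := by
  induction T using Finset.induction_on with
  | empty => exact Finset.sum_empty
  | insert a T ha ih =>
    rw [Finset.sum_insert ha, Finset.erase_insert ha]
    have h1 : ∀ i ∈ T, ∑ j ∈ (insert a T).erase i, g i j = g i a + ∑ j ∈ T.erase i, g i j := by
      intro i hi
      have hia : i ≠ a := fun h => ha (h ▸ hi)
      rw [Finset.erase_insert_of_ne (Ne.symm hia), Finset.sum_insert]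
      exact fun h => ha (Finset.mem_of_mem_erase h)
    rw [Finset.sum_congr rfl h1, Finset.sum_add_distrib, ih, add_zero]
    have h2 : ∑ i ∈ T, g i a = ∑ j ∈ T, g a j := Finset.sum_congr rfl fun i _ => hg i a
    rw [h2]
    exact two_zero _

/-- one step of the lemma: `f` and a symmetric correction `g` -/
private theorem Pig_sum {T : Finset ι} {R : Finset H} {f g : ι → (ι → H) → ZMod 2}
    (G : ι → ι → (ι → H) → ZMod 2) (hG : ∀ i j, G i j = G j i)
    (hg : ∀ i ∈ T, ∀ x, g i x = f i x + ∑ j ∈ T.erase i, G i j x)
    (h : ∀ x ∈ Good T R, ∑ i ∈ T, f i x = 0) : ∀ x ∈ Good T R, ∑ i ∈ T, g i x = 0 := by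
  intro x hx
  rw [Finset.sum_congr rfl fun i hi => hg i hi x, Finset.sum_add_distrib, h x hx, zero_add]
  exact sym_sum T (fun i j => G i j x) fun i j => by rw [hG]

/-- **The pigeon lemma.** -/
theorem pig [Fintype H] (t : ℕ) : ∀ (T : Finset ι) (R : Finset H), T.card = t →
    R.card + 2 * t ≤ Fintype.card H + 1 → ∀ f : ι → (ι → H) → ZMod 2,
    (∀ i ∈ T, Dep (T.erase i) (f i)) → (∀ x ∈ Good T R, ∑ i ∈ T, f i x = 0) →
    ∃ g : ι → ι → (ι → H) → ZMod 2, (∀ i j, g i j = g j i) ∧
      (∀ i ∈ T, ∀ j ∈ T, i ≠ j → Dep ((T.erase i).erase j) (g i j)) ∧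
      ∀ i ∈ T, ∀ x ∈ Good (T.erase i) R, f i x = ∑ j ∈ T.erase i, g i j x := by
  induction t with
  | zero =>
    intro T R hT _ f _ _
    have hT' : T = ∅ := Finset.card_eq_zero.1 hT
    subst hT'
    exact ⟨fun _ _ _ => 0, fun _ _ => rfl, fun i hi => absurd hi (Finset.notMem_empty i),
      fun i hi => absurd hi (Finset.notMem_empty i)⟩
  | succ t ih =>
    intro T R hT hR f hf hsum
    obtain ⟨a, ha⟩ : T.Nonempty := by
      rw [← Finset.card_pos, hT]
      exact Nat.succ_pos t
    obtain ⟨h, hh⟩ : ∃ h, h ∉ R := by
      by_contra hcon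
      push Not at hcon
      have h1 : R = Finset.univ := Finset.eq_univ_iff_forall.2 hcon
      rw [h1, Finset.card_univ] at hR
      omega
    have hcE : ∀ k ∈ T, (T.erase k).card = t := fun k hk => by
      rw [Finset.card_erase_of_mem hk, hT]
      rfl
    -- step 1
    obtain ⟨G1, hG1⟩ : ∃ G1 : ι → ι → (ι → H) → ZMod 2, ∀ i j x, G1 i j x =
        if j = a then (if i = a then 0 else f i (Function.update x a h)) else
          (if i = a then f j (Function.update x a h) else 0) := ⟨_, fun _ _ _ => rfl⟩
    have hG1s : ∀ i j, G1 i j = G1 j i := by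
      intro i j
      funext x
      rw [hG1, hG1]
      by_cases hi : i = a
      · by_cases hj : j = a
        · simp only [if_pos hi, if_pos hj]
        · simp only [if_pos hi, if_neg hj]
      · by_cases hj : j = a
        · simp only [if_neg hi, if_pos hj]
        · simp only [if_neg hi, if_neg hj]
    have hG1d : ∀ i ∈ T, ∀ j ∈ T, i ≠ j → Dep ((T.erase i).erase j) (G1 i j) := by
      intro i hi j hj hij
      by_cases hja : j = a
      · subst hja
        have h1 : G1 i j = fun x => f i (Function.update x j h) := by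
          funext x
          rw [hG1, if_pos rfl, if_neg hij]
        rw [h1]
        exact (hf i hi).update j h
      · by_cases hia : i = a
        · subst hia
          have h1 : G1 i j = fun x => f j (Function.update x i h) := by
            funext x
            rw [hG1, if_neg hja, if_pos rfl]
          rw [h1, Finset.erase_right_comm]
          exact (hf j hj).update i h
        · have h1 : G1 i j = fun _ => 0 := by
            funext x
            rw [hG1, if_neg hja, if_neg hia]
          rw [h1]
          exact fun _ _ _ => rfl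
    obtain ⟨f1, hf1⟩ : ∃ f1 : ι → (ι → H) → ZMod 2, ∀ i x, f1 i x = f i x + ∑ j ∈ T.erase i, G1 i j x :=
      ⟨_, fun _ _ => rfl⟩
    have hsum1 := Pig_sum G1 hG1s (fun i _ x => hf1 i x) hsum
    have hf1d : ∀ i ∈ T, Dep (T.erase i) (f1 i) := by
      intro i hi
      have h1 : f1 i = fun x => f i x + ∑ j ∈ T.erase i, G1 i j x := funext fun x => hf1 i x
      rw [h1]
      refine (hf i hi).add (Dep.sum _ fun j hj => ?_)
      have hj' := Finset.mem_erase.1 hj
      exact (hG1d i hi j hj'.2 (Ne.symm hj'.1)).mono (Finset.erase_subset _ _)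
    have hf1a : ∀ x ∈ Good (T.erase a) (insert h R), f1 a x = 0 := by
      intro x hx
      have h1 := hsum _ (good_put ha hh hx)
      rw [← Finset.add_sum_erase T _ ha] at h1
      rw [hf1, ← h1]
      have h2 : f a (Function.update x a h) = f a x := (hf a ha).eq_update x h
      rw [h2]
      refine congrArg (f a x + ·) (Finset.sum_congr rfl fun j hj => ?_)
      rw [hG1, if_neg (Finset.mem_erase.1 hj).1, if_pos rfl]
    -- step 2
    have hst2 : ∀ v : H, ∃ g : ι → ι → (ι → H) → ZMod 2, v ∉ R → (∀ i j, g i j = g j i) ∧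
        (∀ i ∈ T.erase a, ∀ j ∈ T.erase a, i ≠ j → Dep (((T.erase a).erase i).erase j) (g i j)) ∧
        ∀ i ∈ T.erase a, ∀ x ∈ Good ((T.erase a).erase i) (insert v (insert h R)),
          f1 i (Function.update x a v) = ∑ j ∈ (T.erase a).erase i, g i j x := by
      intro v
      by_cases hv : v ∈ R
      · exact ⟨fun _ _ _ => 0, fun h => absurd hv h⟩
      · have hc1 : (insert v (insert h R)).card ≤ R.card + 2 :=
          (Finset.card_insert_le _ _).trans (Nat.succ_le_succ (Finset.card_insert_le _ _))
        obtain ⟨g, hg⟩ := ih (T.erase a) (insert v (insert h R)) (hcE a ha) (by omega)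
          (fun i x => f1 i (Function.update x a v)) (fun i hi => by
            have h1 := (hf1d i (Finset.mem_of_mem_erase hi)).update a v
            rwa [Finset.erase_right_comm] at h1) (fun x hx => by
            have h1 : Function.update x a v ∈ Good T R :=
              good_put ha hv (good_mono (Finset.Subset.refl _)
                (Finset.insert_subset_insert _ (Finset.subset_insert _ _)) hx)
            have h2 := hsum1 _ h1
            rw [← Finset.add_sum_erase T _ ha] at h2
            have h3 : f1 a (Function.update x a v) = f1 a x := (hf1d a ha).eq_update x v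
            rw [h3, hf1a x (good_mono (Finset.Subset.refl _) (Finset.subset_insert _ _) hx), zero_add] at h2
            exact h2)
        exact ⟨g, fun _ => hg⟩
    choose g2 hg2 using hst2
    obtain ⟨G2, hG2⟩ : ∃ G2 : ι → ι → (ι → H) → ZMod 2, ∀ i j x, G2 i j x =
        if i = a ∨ j = a ∨ x a ∈ R then 0 else g2 (x a) i j x := ⟨_, fun _ _ _ => rfl⟩
    have hG2s : ∀ i j, G2 i j = G2 j i := by
      intro i j
      funext x
      rw [hG2, hG2]
      by_cases h1 : i = a ∨ j = a ∨ x a ∈ R
      · rw [if_pos h1, if_pos]
        rcases h1 with h1 | h1 | h1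
        · exact Or.inr (Or.inl h1)
        · exact Or.inl h1
        · exact Or.inr (Or.inr h1)
      · rw [if_neg h1, if_neg]
        · push Not at h1
          rw [(hg2 (x a) h1.2.2).1 i j]
        · intro h2
          apply h1
          rcases h2 with h2 | h2 | h2
          · exact Or.inr (Or.inl h2)
          · exact Or.inl h2
          · exact Or.inr (Or.inr h2)
    have hG2d : ∀ i ∈ T, ∀ j ∈ T, i ≠ j → Dep ((T.erase i).erase j) (G2 i j) := by
      intro i hi j hj hij
      by_cases hia : i = a
      · have h1 : G2 i j = fun _ => 0 := by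
          funext x
          rw [hG2, if_pos (Or.inl hia)]
        rw [h1]
        exact fun _ _ _ => rfl
      · by_cases hja : j = a
        · have h1 : G2 i j = fun _ => 0 := by
            funext x
            rw [hG2, if_pos (Or.inr (Or.inl hja))]
          rw [h1]
          exact fun _ _ _ => rfl
        · intro x y hxy
          have hxa : x a = y a := hxy a
            (Finset.mem_erase.2 ⟨Ne.symm hja, Finset.mem_erase.2 ⟨Ne.symm hia, ha⟩⟩)
          rw [hG2, hG2, ← hxa]
          by_cases h1 : i = a ∨ j = a ∨ x a ∈ R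
          · rw [if_pos h1, if_pos h1]
          · rw [if_neg h1, if_neg h1]
            push Not at h1
            refine (hg2 (x a) h1.2.2).2.1 i (Finset.mem_erase.2 ⟨hia, hi⟩) j (Finset.mem_erase.2 ⟨hja, hj⟩) hij
              x y fun l hl => hxy l ?_
            rw [Finset.mem_erase, Finset.mem_erase, Finset.mem_erase] at hl
            rw [Finset.mem_erase, Finset.mem_erase]
            exact ⟨hl.1, hl.2.1, hl.2.2.2⟩
    obtain ⟨f2, hf2⟩ : ∃ f2 : ι → (ι → H) → ZMod 2, ∀ i x, f2 i x = f1 i x + ∑ j ∈ T.erase i, G2 i j x :=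
      ⟨_, fun _ _ => rfl⟩
    have hsum2 := Pig_sum G2 hG2s (fun i _ x => hf2 i x) hsum1
    have hf2d : ∀ i ∈ T, Dep (T.erase i) (f2 i) := by
      intro i hi
      have h1 : f2 i = fun x => f1 i x + ∑ j ∈ T.erase i, G2 i j x := funext fun x => hf2 i x
      rw [h1]
      refine (hf1d i hi).add (Dep.sum _ fun j hj => ?_)
      have hj' := Finset.mem_erase.1 hj
      exact (hG2d i hi j hj'.2 (Ne.symm hj'.1)).mono (Finset.erase_subset _ _)
    have hf20 : ∀ i ∈ T, ∀ x ∈ Good (T.erase i) (insert h R), f2 i x = 0 := by
      intro i hi x hx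
      rw [hf2]
      by_cases hia : i = a
      · subst hia
        rw [hf1a x hx, zero_add]
        refine Finset.sum_eq_zero fun j _ => ?_
        rw [hG2, if_pos (Or.inl rfl)]
      · have haE : a ∈ T.erase i := Finset.mem_erase.2 ⟨Ne.symm hia, ha⟩
        have hxa : x a ∉ R := fun h2 => hx.1 a haE (Finset.mem_insert_of_mem h2)
        have hx2 : x ∈ Good ((T.erase a).erase i) (insert (x a) (insert h R)) := by
          rw [Finset.erase_right_comm]
          exact good_del haE hx
        have h1 := (hg2 (x a) hxa).2.2 i (Finset.mem_erase.2 ⟨hia, hi⟩) x hx2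
        rw [Function.update_eq_self] at h1
        rw [h1, ← Finset.add_sum_erase (T.erase i) _ haE, hG2, if_pos (Or.inr (Or.inl rfl)), zero_add,
          Finset.erase_right_comm]
        have h2 : ∑ j ∈ (T.erase i).erase a, G2 i j x = ∑ j ∈ (T.erase i).erase a, g2 (x a) i j x := by
          refine Finset.sum_congr rfl fun j hj => ?_
          rw [hG2, if_neg]
          rintro (h3 | h3 | h3)
          · exact hia h3
          · exact (Finset.mem_erase.1 hj).1 h3
          · exact hxa h3
        rw [h2]
        exact two_zero _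
    -- step 3
    have hst3 : ∀ k : ι, ∃ g : ι → ι → (ι → H) → ZMod 2, k ∈ T → (∀ i j, g i j = g j i) ∧
        (∀ i ∈ T.erase k, ∀ j ∈ T.erase k, i ≠ j → Dep (((T.erase k).erase i).erase j) (g i j)) ∧
        ∀ i ∈ T.erase k, ∀ x ∈ Good ((T.erase k).erase i) (insert h R),
          f2 i (Function.update x k h) = ∑ j ∈ (T.erase k).erase i, g i j x := by
      intro k
      by_cases hk : k ∈ T
      · have hc1 : (insert h R).card ≤ R.card + 1 := Finset.card_insert_le _ _
        obtain ⟨g, hg⟩ := ih (T.erase k) (insert h R) (hcE k hk) (by omega)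
          (fun i x => f2 i (Function.update x k h)) (fun i hi => by
            have h1 := (hf2d i (Finset.mem_of_mem_erase hi)).update k h
            rwa [Finset.erase_right_comm] at h1) (fun x hx => by
            have h2 := hsum2 _ (good_put hk hh hx)
            rw [← Finset.add_sum_erase T _ hk] at h2
            have h3 : f2 k (Function.update x k h) = f2 k x := (hf2d k hk).eq_update x h
            rw [h3, hf20 k hk x hx, zero_add] at h2
            exact h2)
        exact ⟨g, fun _ => hg⟩
      · exact ⟨fun _ _ _ => 0, fun h => absurd h hk⟩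
    choose g3 hg3 using hst3
    obtain ⟨G3, hG3⟩ : ∃ G3 : ι → ι → (ι → H) → ZMod 2, ∀ i j x, G3 i j x =
        ∑ k ∈ (T.erase i).erase j, if x k = h then g3 k i j x else 0 := ⟨_, fun _ _ _ => rfl⟩
    have hG3s : ∀ i j, G3 i j = G3 j i := by
      intro i j
      funext x
      rw [hG3, hG3, Finset.erase_right_comm]
      refine Finset.sum_congr rfl fun k hk => ?_
      rw [(hg3 k (Finset.mem_of_mem_erase (Finset.mem_of_mem_erase hk))).1 i j]
    have hG3d : ∀ i ∈ T, ∀ j ∈ T, i ≠ j → Dep ((T.erase i).erase j) (G3 i j) := by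
      intro i hi j hj hij x y hxy
      rw [hG3, hG3]
      refine Finset.sum_congr rfl fun k hk => ?_
      rw [← hxy k hk]
      by_cases h1 : x k = h
      · rw [if_pos h1, if_pos h1]
        have hk' := hk
        rw [Finset.mem_erase, Finset.mem_erase] at hk'
        refine (hg3 k hk'.2.2).2.1 i (Finset.mem_erase.2 ⟨Ne.symm hk'.2.1, hi⟩) j
          (Finset.mem_erase.2 ⟨Ne.symm hk'.1, hj⟩) hij x y fun l hl => hxy l ?_
        rw [Finset.mem_erase, Finset.mem_erase, Finset.mem_erase] at hl
        rw [Finset.mem_erase, Finset.mem_erase]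
        exact ⟨hl.1, hl.2.1, hl.2.2.2⟩
      · rw [if_neg h1, if_neg h1]
    have hf23 : ∀ i ∈ T, ∀ x ∈ Good (T.erase i) R, f2 i x = ∑ j ∈ T.erase i, G3 i j x := by
      intro i hi x hx
      by_cases hk : ∃ k ∈ T.erase i, x k = h
      · obtain ⟨k, hkE, hxk⟩ := hk
        have hkT := Finset.mem_of_mem_erase hkE
        have hki := (Finset.mem_erase.1 hkE).1
        have hiE : i ∈ T.erase k := Finset.mem_erase.2 ⟨Ne.symm hki, hi⟩
        have hx2 : x ∈ Good ((T.erase k).erase i) (insert h R) := by
          have h1 := good_del hkE hx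
          rwa [hxk, Finset.erase_right_comm] at h1
        have h1 := (hg3 k hkT).2.2 i hiE x hx2
        have h2 : Function.update x k h = x := by
          rw [← hxk, Function.update_eq_self]
        rw [h2] at h1
        rw [h1, ← Finset.add_sum_erase (T.erase i) _ hkE]
        have huniq : ∀ l ∈ T.erase i, x l = h → l = k := fun l hl hxl =>
          hx.2 l hl k hkE (hxl.trans hxk.symm)
        have h3 : G3 i k x = 0 := by
          rw [hG3]
          refine Finset.sum_eq_zero fun l hl => if_neg fun hxl => ?_
          exact (Finset.mem_erase.1 hl).1 (huniq l (Finset.mem_of_mem_erase hl) hxl)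
        rw [h3, zero_add, Finset.erase_right_comm]
        refine Finset.sum_congr rfl fun j hj => ?_
        have hjk := (Finset.mem_erase.1 hj).1
        have hkm : k ∈ (T.erase i).erase j := Finset.mem_erase.2 ⟨Ne.symm hjk, hkE⟩
        rw [hG3, Finset.sum_eq_single k]
        · rw [if_pos hxk]
        · intro l hl hlk
          exact if_neg fun hxl => hlk (huniq l (Finset.mem_of_mem_erase hl) hxl)
        · exact fun h4 => absurd hkm h4
      · push Not at hk
        have hx2 : x ∈ Good (T.erase i) (insert h R) :=
          ⟨fun l hl hR2 => by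
            rcases Finset.mem_insert.1 hR2 with h1 | h1
            · exact hk l hl h1
            · exact hx.1 l hl h1, hx.2⟩
        rw [hf20 i hi x hx2]
        refine (Finset.sum_eq_zero fun j _ => ?_).symm
        rw [hG3]
        exact Finset.sum_eq_zero fun l hl => if_neg (hk l (Finset.mem_of_mem_erase hl))
    refine ⟨fun i j x => G1 i j x + (G2 i j x + G3 i j x), fun i j => ?_, fun i hi j hj hij => ?_,
      fun i hi x hx => ?_⟩
    · funext x
      show G1 i j x + (G2 i j x + G3 i j x) = G1 j i x + (G2 j i x + G3 j i x)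
      rw [hG1s i j, hG2s i j, hG3s i j]
    · exact (hG1d i hi j hj hij).add ((hG2d i hi j hj hij).add (hG3d i hi j hj hij))
    · have h1 := hf1 i x
      have h2 := hf2 i x
      have h3 := hf23 i hi x hx
      rw [Finset.sum_add_distrib, Finset.sum_add_distrib, ← h3, h2, h1]
      have h4 := two_zero (∑ j ∈ T.erase i, G1 i j x)
      have h5 := two_zero (∑ j ∈ T.erase i, G2 i j x)
      linear_combination - h4 - h5

end H27BP
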